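import Pool.Agent.N584.TI.Growth

/-!
# The equivalences
-/

set_option autoImplicit false

namespace Pool.Agent.N584.TI

open Finset

theorem arrow_fin (r n m : ℕ) :
    (∀ col : Finset (Fin m) → Bool,
              ∃ S : Finset (Fin m), S.card = n ∧ ∃ b : Bool,
                ∀ e : Finset (Fin m), e ⊆ S → e.card = r → col e = b) ↔
      Arrow (κ := Bool) AllCol r n m := by
  classical
  constructor
  · intro h c _
    obtain ⟨S, hS, b, hb⟩ := h (fun e => c (e.map Fin.valEmbedding))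
    refine ⟨S.map Fin.valEmbedding, ?_, by rw [card_map, hS], b, ?_⟩
    · intro x hx
      obtain ⟨i, -, rfl⟩ := mem_map.1 hx
      simp
    · intro A hA hAc
      obtain ⟨e, he, rfl⟩ := subset_map_iff.1 hA
      rw [card_map] at hAc
      exact hb e he hAc
  · intro h col
    obtain ⟨S, hS, hSn, b, hb⟩ := h
      (fun A => col (univ.filter (fun i : Fin m => (i : ℕ) ∈ A))) trivial
    have key : ∀ A : Finset ℕ, A ⊆ range m →
        (univ.filter (fun i : Fin m => (i : ℕ) ∈ A)).map Fin.valEmbedding = A := by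
      intro A hA
      ext x
      simp only [mem_map, mem_filter, mem_univ, true_and, Fin.valEmbedding_apply]
      constructor
      · rintro ⟨i, hi, rfl⟩
        exact hi
      · intro hx
        exact ⟨⟨x, mem_range.1 (hA hx)⟩, hx, rfl⟩
    refine ⟨univ.filter (fun i : Fin m => (i : ℕ) ∈ S), ?_, b, ?_⟩
    · rw [← card_map Fin.valEmbedding, key S hS, hSn]
    · intro e he hec
      have h1 : e.map Fin.valEmbedding ⊆ S := by
        intro x hx
        obtain ⟨i, hi, rfl⟩ := mem_map.1 hx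
        exact (mem_filter.1 (he hi)).2
      have h2 := hb _ h1 (by rw [card_map, hec])
      have h3 : univ.filter (fun i : Fin m => (i : ℕ) ∈ e.map Fin.valEmbedding) = e := by
        ext i
        simp only [mem_filter, mem_univ, true_and, mem_map, Fin.valEmbedding_apply]
        constructor
        · rintro ⟨j, hj, hji⟩
          rwa [← Fin.ext hji]
        · intro hi
          exact ⟨i, hi, rfl⟩
      rwa [h3] at h2

theorem Q1_iff : Q1 ↔ ∀ r : ℕ, 3 ≤ r → Growth (Ram (κ := Bool) AllCol r) (r - 1) := by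
  unfold Q1 Growth Ram
  simp only [arrow_fin, forall_eq]

theorem twr_le_E (k x : ℕ) :
    ((Pool.Agent.TH360.SR.twr k x : ℕ) : ℝ) ≤ Real.exp^[k] (x : ℝ) := by
  induction k with
  | zero => exact le_rfl
  | succ k ih =>
    rw [Function.iterate_succ_apply']
    show (((2 ^ Pool.Agent.TH360.SR.twr k x : ℕ)) : ℝ) ≤ _
    push_cast
    have : (2 : ℝ) ≤ Real.exp 1 := by
      have := Real.add_one_le_exp (1 : ℝ)
      linarith
    calc (2 : ℝ) ^ Pool.Agent.TH360.SR.twr k x ≤ (Real.exp 1) ^ Pool.Agent.TH360.SR.twr k x :=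
          pow_le_pow_left₀ (by norm_num) this _
      _ = Real.exp (Pool.Agent.TH360.SR.twr k x : ℝ) := by
          rw [← Real.exp_nat_mul, mul_one]
      _ ≤ _ := Real.exp_le_exp.2 ih

theorem up_all {r : ℕ} (hr : 2 ≤ r) : Up (r - 1) (Ram (κ := Bool) AllCol r) := by
  refine ⟨(2 * r - 2).factorial * 8, by positivity, 1, ?_⟩
  intro n hn
  have h1 := er_upper hr hn
  have h2 := twr_le_E (r - 1) ((2 * r - 2).factorial * (8 * n))
  refine le_trans (by exact_mod_cast h1) (h2.trans (le_of_eq ?_))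
  congr 1
  push_cast
  ring

theorem growth_class {P : ℕ → ℕ → (Finset ℕ → Bool) → Prop} (hP : Inh P) {s : ℕ} (hs : 2 ≤ s) :
    Growth (Ram P s) (s - 1) ↔ Lo 1 (s - 1) (Ram P s) := by
  rw [growth_iff (fun n => le_Ram (by omega) hP)]
  exact ⟨fun h => h.1, fun h => ⟨h, (up_all hs).mono fun n =>
    Ram_sub (by omega) (fun _ _ _ _ => trivial)⟩⟩

theorem lo_scale {e r k : ℕ} (he : 1 ≤ e) (hr : 3 ≤ r) (hk : 1 ≤ k)
    (h : Lo e k (Ram (κ := Bool) AllCol r)) :
    Lo e (k + 1) (Ram (κ := Bool) ScaleCol (r + 1)) := by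
  refine lo_step (a := 2) (b := r - 1) he hk (by norm_num)
    (fun n m hnm => Ram_mono (by omega) hnm) ?_ h
  intro n hn
  have := scale_ineq_lower (κ := Bool) (κ₀ := true) (κ₁ := false) (by decide) hr hn
  rw [show 2 * n + r - 1 = 2 * n + (r - 1) by omega] at this
  exact this.le

theorem lo_aff {e r k : ℕ} (he : 1 ≤ e) (hr : 3 ≤ r) (hk : 1 ≤ k)
    (h : Lo e k (Ram (κ := Bool) AllCol r)) :
    Lo e (k + 2) (Ram (κ := Bool) AffInv (r + 2)) := by
  have h1 : Lo e (k + 1) (fun n => 2 ^ (Ram (κ := Bool) AllCol r n - 1)) := by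
    refine lo_step (a := 1) (b := 0) he hk (by norm_num) ?_ ?_ h
    · intro n m hnm
      have := Ram_mono (κ := Bool) (P := AllCol) (r := r) (by omega) hnm
      exact Nat.pow_le_pow_right (by norm_num) (by omega)
    · intro n _
      simp
  refine lo_step (a := 4) (b := 3 * r - 2) he (by omega) (by norm_num)
    (fun n m hnm => Ram_mono (by omega) hnm) ?_ h1
  intro n hn
  have := aff_ineq_lower (κ := Bool) (κ₀ := true) (κ₁ := false) (by decide) hr hn
  rw [show 4 * n + 3 * r - 2 = 4 * n + (3 * r - 2) by omega] at this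
  exact (Nat.pow_le_pow_right (by norm_num) (Nat.sub_le _ _)).trans this.le

theorem lo_up_all {e r k : ℕ} (he : 1 ≤ e) (hr : 3 ≤ r) (hk : 1 ≤ k)
    (h : Lo e k (Ram (κ := Bool) AllCol r)) : Lo e (k + 1) (Ram (κ := Bool) AllCol (r + 1)) :=
  (lo_scale he hr hk h).mono fun n => Ram_sub (by omega) (fun _ _ _ _ => trivial)

theorem lo_down_all {e r k : ℕ} (he : 1 ≤ e) (hr : 3 ≤ r) (hk : 1 ≤ k)
    (h : Lo e (k + 1) (Ram (κ := Bool) AllCol (r + 1))) :
    Lo e k (Ram (κ := Bool) AllCol r) :=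
  lo_down he hk (r := r) (by omega) (fun n => le_Ram (by omega) inh_all)
    (fun n => er_ineq (by omega)) h

theorem all_iff {r : ℕ} (hr : 3 ≤ r) :
    Lo 1 (r - 1) (Ram (κ := Bool) AllCol r) ↔ Lo 1 2 (Ram (κ := Bool) AllCol 3) := by
  induction r, hr using Nat.le_induction with
  | base => rfl
  | succ r hr ih =>
    rw [← ih]
    obtain ⟨q, rfl⟩ : ∃ q, r = q + 1 := ⟨r - 1, by omega⟩
    rw [show q + 1 + 1 - 1 = q + 1 by omega, show q + 1 - 1 = q by omega]
    exact ⟨lo_down_all le_rfl hr (by omega), lo_up_all le_rfl hr (by omega)⟩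

theorem Q1_iff_three : Q1 ↔ Lo 1 2 (Ram (κ := Bool) AllCol 3) := by
  rw [Q1_iff]
  constructor
  · intro h
    exact (growth_class inh_all (by norm_num)).1 (h 3 le_rfl)
  · intro h r hr
    exact (growth_class inh_all (by omega)).2 ((all_iff hr).2 h)

theorem scale_iff {s : ℕ} (hs : 4 ≤ s) :
    Q1 ↔ Growth (Ram (κ := Bool) ScaleCol s) (s - 1) := by
  rw [Q1_iff_three, growth_class inh_scale (by omega)]
  obtain ⟨r, rfl⟩ : ∃ r, s = r + 1 := ⟨s - 1, by omega⟩
  constructor
  · intro h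
    have := lo_scale le_rfl (show 3 ≤ r by omega) (by omega) ((all_iff (r := r) (by omega)).2 h)
    rwa [show r - 1 + 1 = r + 1 - 1 by omega] at this
  · intro h
    exact (all_iff (by omega)).1 (h.mono fun n => Ram_sub (by omega) (fun _ _ _ _ => trivial))

theorem trans_iff {s : ℕ} (hs : 4 ≤ s) :
    Q1 ↔ Growth (Ram (κ := Bool) TransInv s) (s - 1) := by
  constructor
  · intro h
    rw [scale_iff hs, growth_class inh_scale (by omega)] at h
    rw [growth_class inh_trans (by omega)]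
    exact h.mono fun n => Ram_sub (by omega) (fun _ _ _ hc => hc.transInv)
  · intro h
    rw [growth_class inh_trans (by omega)] at h
    rw [Q1_iff_three]
    exact (all_iff (by omega)).1 (h.mono fun n => Ram_sub (by omega) (fun _ _ _ _ => trivial))

theorem aff_iff {s : ℕ} (hs : 5 ≤ s) :
    Q1 ↔ Growth (Ram (κ := Bool) AffInv s) (s - 1) := by
  rw [Q1_iff_three, growth_class inh_aff (by omega)]
  obtain ⟨r, rfl⟩ : ∃ r, s = r + 2 := ⟨s - 2, by omega⟩
  constructor
  · intro h
    have := lo_aff le_rfl (show 3 ≤ r by omega) (by omega) ((all_iff (r := r) (by omega)).2 h)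
    rwa [show r - 1 + 2 = r + 2 - 1 by omega] at this
  · intro h
    exact (all_iff (by omega)).1 (h.mono fun n => Ram_sub (by omega) (fun _ _ _ _ => trivial))

/-! ### Unconditional bounds -/

theorem two_pow_ge {x : ℕ} {y : ℝ} (h : 2 * y ≤ x) : Real.exp y ≤ (2 : ℝ) ^ x := by
  rw [← Real.rpow_natCast, Real.rpow_def_of_pos (by norm_num)]
  apply Real.exp_le_exp.2
  have := Real.log_two_gt_d9
  have hx : (0 : ℝ) ≤ x := Nat.cast_nonneg _
  nlinarith

theorem lo_three : Lo 2 1 (Ram (κ := Bool) AllCol 3) := by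
  refine ⟨1 / 48, by norm_num, 6, ?_⟩
  intro n hn
  have h1 := lt_Ram (by norm_num) hered_all (three_lower n hn)
  have h2 : Real.exp (1 / 48 * (n : ℝ) ^ 2) ≤ (2 : ℝ) ^ (n ^ 2 / 12) := by
    apply two_pow_ge
    have h3 : n ^ 2 ≤ 24 * (n ^ 2 / 12) := by
      have : 36 ≤ n ^ 2 := by nlinarith
      omega
    have h4 : (n : ℝ) ^ 2 ≤ 24 * ((n ^ 2 / 12 : ℕ) : ℝ) := by exact_mod_cast h3
    linarith
  rw [Function.iterate_one]
  refine h2.trans ?_
  exact_mod_cast h1.le

theorem lo_two : Lo 1 1 (Ram (κ := Bool) AllCol 2) := by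
  refine ⟨1 / 16, by norm_num, 4, ?_⟩
  intro n hn
  have h1 := lt_Ram (by norm_num) hered_all (two_lower n hn)
  have h2 : Real.exp (1 / 16 * (n : ℝ) ^ 1) ≤ (2 : ℝ) ^ (n / 4) := by
    apply two_pow_ge
    have h3 : n ≤ 8 * (n / 4) := by omega
    have h4 : (n : ℝ) ≤ 8 * ((n / 4 : ℕ) : ℝ) := by exact_mod_cast h3
    rw [pow_one]
    linarith
  rw [Function.iterate_one]
  refine h2.trans ?_
  exact_mod_cast h1.le

theorem lo_all_two {r : ℕ} (hr : 3 ≤ r) : Lo 2 (r - 2) (Ram (κ := Bool) AllCol r) := by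
  induction r, hr using Nat.le_induction with
  | base => exact lo_three
  | succ r hr ih =>
    have := lo_up_all (by norm_num) hr (by omega) ih
    rwa [show r - 2 + 1 = r + 1 - 2 by omega] at this

theorem scale_lower_growth {s : ℕ} (hs : 4 ≤ s) :
    LowerGrowth (Ram (κ := Bool) ScaleCol s) (s - 2) 2 := by
  obtain ⟨r, rfl⟩ : ∃ r, s = r + 1 := ⟨s - 1, by omega⟩
  have h := lo_scale (e := 2) (by norm_num) (show 3 ≤ r by omega) (by omega)
    (lo_all_two (r := r) (by omega))
  rw [show r - 2 + 1 = r + 1 - 2 by omega] at h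
  exact h.lower fun n => le_Ram (by omega) inh_scale

theorem aff_lower_growth {s : ℕ} (hs : 5 ≤ s) :
    LowerGrowth (Ram (κ := Bool) AffInv s) (s - 2) 2 := by
  obtain ⟨r, rfl⟩ : ∃ r, s = r + 2 := ⟨s - 2, by omega⟩
  have h := lo_aff (e := 2) (by norm_num) (show 3 ≤ r by omega) (by omega)
    (lo_all_two (r := r) (by omega))
  rw [show r - 2 + 2 = r + 2 - 2 by omega] at h
  exact h.lower fun n => le_Ram (by omega) inh_aff

theorem four_scale : LowerGrowth (Ram (κ := Bool × Bool) ScaleCol 3) 2 1 := by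
  have h : Lo 1 2 (Ram (κ := Bool × Bool) ScaleCol 3) := by
    refine lo_step (k := 1) (a := 1) (b := 1) le_rfl le_rfl le_rfl
      (fun n m hnm => Ram_mono (by omega) hnm) ?_ lo_two
    intro n hn
    rw [one_mul]
    exact (pair_scale_ineq hn).le
  exact h.lower fun n => le_Ram (by omega) inh_scale

theorem four_aff : LowerGrowth (Ram (κ := Bool × Bool) AffInv 4) 3 1 := by
  have h1 : Lo 1 2 (fun n => 2 ^ (Ram (κ := Bool) AllCol 2 n - 1)) := by
    refine lo_step (k := 1) (a := 1) (b := 0) le_rfl le_rfl (by norm_num) ?_ ?_ lo_two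
    · intro n m hnm
      have := Ram_mono (κ := Bool) (P := AllCol) (r := 2) (by omega) hnm
      exact Nat.pow_le_pow_right (by norm_num) (by omega)
    · intro n _
      simp
  have h : Lo 1 3 (Ram (κ := Bool × Bool) AffInv 4) := by
    refine lo_step (k := 2) (a := 2) (b := 4) le_rfl (by omega) (by norm_num)
      (fun n m hnm => Ram_mono (by omega) hnm) ?_ h1
    intro n hn
    have := pair_aff_ineq (κ := Bool) hn
    exact (Nat.pow_le_pow_right (by norm_num) (Nat.sub_le _ _)).trans this.le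
  exact h.lower fun n => le_Ram (by omega) inh_aff

end Pool.Agent.N584.TI
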