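import Mathlib

/-!
# Ramsey numbers of classes of colourings
-/

set_option autoImplicit false

namespace Pool.Agent.N584.TI

open Finset

variable {κ : Type*}

/-- All colourings. -/
def AllCol (_r _N : ℕ) (_c : Finset ℕ → κ) : Prop := True

/-- The colouring `c` of the `r`-subsets of `{0, …, N - 1}` is invariant under translations. -/
def TransInv (r N : ℕ) (c : Finset ℕ → κ) : Prop :=
  ∀ (A : Finset ℕ) (t : ℕ), A.card = r → A ⊆ range N → A.image (· + t) ⊆ range N →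
    c (A.image (· + t)) = c A

/-- The colour of the `r`-subset `{x 0 < … < x (r - 1)}` of `{0, …, N - 1}` depends only on the
numbers `⌊log₂ (x j - x i)⌋` (`i < j`). -/
def ScaleCol (r N : ℕ) (c : Finset ℕ → κ) : Prop :=
  ∀ x y : Fin r → ℕ, StrictMono x → StrictMono y → (∀ i, x i < N) → (∀ i, y i < N) →
    (∀ i j, i < j → Nat.log 2 (x j - x i) = Nat.log 2 (y j - y i)) →
      c (univ.image x) = c (univ.image y)

/-- The colouring `c` of the `r`-subsets of `{0, …, N - 1}` is invariant under all increasing affine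
maps: two `r`-subsets of which one is mapped to the other one by a map `z ↦ α * z + β` with `α > 0`
(`α`, `β` real numbers) have the same colour. -/
def AffInv (r N : ℕ) (c : Finset ℕ → κ) : Prop :=
  ∀ x y : Fin r → ℕ, StrictMono x → StrictMono y → (∀ i, x i < N) → (∀ i, y i < N) →
    (∃ α β : ℝ, 0 < α ∧ ∀ i, (y i : ℝ) = α * x i + β) →
      c (univ.image x) = c (univ.image y)

/-- Every colouring of the `r`-subsets of `{0, …, N - 1}` in the class `P` has a homogeneous set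
with `n` elements. -/
def Arrow (P : ℕ → ℕ → (Finset ℕ → κ) → Prop) (r n N : ℕ) : Prop :=
  ∀ c : Finset ℕ → κ, P r N c →
    ∃ S ⊆ range N, S.card = n ∧ ∃ b : κ, ∀ A ⊆ S, A.card = r → c A = b

/-- The Ramsey number of the class `P`. -/
noncomputable def Ram (P : ℕ → ℕ → (Finset ℕ → κ) → Prop) (r n : ℕ) : ℕ :=
  sInf {N | Arrow P r n N}

/-- `c n ≤ log_k (f n) ≤ C n` for all large `n`. -/
def Growth (f : ℕ → ℕ) (k : ℕ) : Prop :=
  ∃ c C : ℝ, 0 < c ∧ 0 < C ∧ ∃ N : ℕ, ∀ n : ℕ, N ≤ n →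
    c * (n : ℝ) ≤ Real.log^[k] (f n : ℝ) ∧ Real.log^[k] (f n : ℝ) ≤ C * (n : ℝ)

/-- `c n ^ e ≤ log_k (f n)` for all large `n`. -/
def LowerGrowth (f : ℕ → ℕ) (k e : ℕ) : Prop :=
  ∃ c : ℝ, 0 < c ∧ ∃ N : ℕ, ∀ n : ℕ, N ≤ n → c * (n : ℝ) ^ e ≤ Real.log^[k] (f n : ℝ)

/-- The question of Erdős in the form of the frozen statement. -/
def Q1 : Prop :=
  ∀ r : ℕ, 3 ≤ r →
    ∃ c C : ℝ, 0 < c ∧ 0 < C ∧ ∃ N : ℕ, ∀ n : ℕ, N ≤ n →
      ∀ R : ℕ,
        R = sInf {m : ℕ | ∀ col : Finset (Fin m) → Bool,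
              ∃ S : Finset (Fin m), S.card = n ∧ ∃ b : Bool,
                ∀ e : Finset (Fin m), e ⊆ S → e.card = r → col e = b} →
        c * (n : ℝ) ≤ (Real.log)^[r - 1] (R : ℝ) ∧
          (Real.log)^[r - 1] (R : ℝ) ≤ C * (n : ℝ)

end Pool.Agent.N584.TI
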