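import Pool.Agent.N584.TI.Scale
import Pool.Agent.N584.TI.Defs

/-!
# The arrow relations
-/

set_option autoImplicit false

namespace Pool.Agent.N584.TI

open Finset

variable {κ : Type*}

theorem not_arrow_all {r n m : ℕ} (h : ¬ Arrow (κ := κ) AllCol r n m) :
    ∃ c : Finset ℕ → κ, ∀ S ⊆ range m, S.card = n → ∀ b, ∃ A ⊆ S, A.card = r ∧ c A ≠ b := by
  unfold Arrow at h
  push Not at h
  obtain ⟨c, -, hc⟩ := h
  exact ⟨c, hc⟩

theorem ScaleCol.transInv {r N : ℕ} {c : Finset ℕ → κ} (h : ScaleCol r N c) :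
    TransInv r N c := by
  intro A t hA hAN hAt
  have e : A = univ.image (A.orderEmbOfFin hA) := (univ_image_orderEmb A hA).symm
  have e2 : A.image (· + t) = univ.image (fun i => A.orderEmbOfFin hA i + t) := by
    conv_lhs => rw [e]
    rw [image_image]
    rfl
  rw [e2]
  conv_rhs => rw [e]
  refine h _ _ (fun i j hij => ?_) (A.orderEmbOfFin hA).strictMono (fun i => ?_) (fun i => ?_)
    (fun i j hij => ?_)
  · have := (A.orderEmbOfFin hA).strictMono hij
    beta_reduce
    omega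
  · have : A.orderEmbOfFin hA i + t ∈ A.image (· + t) :=
      mem_image_of_mem _ (orderEmbOfFin_mem _ _ _)
    simpa using hAt this
  · simpa using hAN (orderEmbOfFin_mem A hA i)
  · rw [Nat.add_sub_add_right]

theorem AffInv.transInv {r N : ℕ} {c : Finset ℕ → κ} (h : AffInv r N c) :
    TransInv r N c := by
  intro A t hA hAN hAt
  have e : A = univ.image (A.orderEmbOfFin hA) := (univ_image_orderEmb A hA).symm
  have e2 : A.image (· + t) = univ.image (fun i => A.orderEmbOfFin hA i + t) := by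
    conv_lhs => rw [e]
    rw [image_image]
    rfl
  rw [e2]
  conv_rhs => rw [e]
  symm
  refine h _ _ (A.orderEmbOfFin hA).strictMono (fun i j hij => ?_) (fun i => ?_) (fun i => ?_)
    ⟨1, t, one_pos, fun i => ?_⟩
  · have := (A.orderEmbOfFin hA).strictMono hij
    beta_reduce
    omega
  · simpa using hAN (orderEmbOfFin_mem A hA i)
  · have : A.orderEmbOfFin hA i + t ∈ A.image (· + t) :=
      mem_image_of_mem _ (orderEmbOfFin_mem _ _ _)
    simpa using hAt this
  · push_cast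
    ring

theorem mem_of_tuple {s : ℕ} {x : Fin s → ℕ} {S : Finset ℕ} (hx : ∀ i, x i ∈ S) :
    univ.image x ⊆ S := by
  intro a ha
  obtain ⟨i, -, rfl⟩ := mem_image.1 ha
  exact hx i

theorem card_tuple {X : Type*} [LinearOrder X] {s : ℕ} {x : Fin s → X} (hx : StrictMono x) :
    (univ.image x).card = s := by
  rw [card_image_of_injective _ hx.injective, card_univ, Fintype.card_fin]

/-- (1) Scale colourings: the lower bound. -/
theorem scale_lower {κ₀ κ₁ : κ} (hκ : κ₀ ≠ κ₁) {s n m : ℕ} (hn : 1 ≤ n)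
    (h : ¬ Arrow (κ := κ) AllCol (s + 3) n m) :
    ¬ Arrow (κ := κ) ScaleCol (s + 4) (2 * n + s + 2) (2 ^ m) := by
  obtain ⟨c₀, hc₀⟩ := not_arrow_all h
  intro hA
  obtain ⟨S, hS, hSn, b, hb⟩ := hA (ofTup (s + 4) κ₀ (stepF ρN κ₀ κ₁ (lev c₀) s)) (by
    intro x y hx hy _ _ hxy
    rw [ofTup_image hx, ofTup_image hy]
    apply stepF_congr 0
    · intro T; simp
    · intro i j hij
      unfold ρN
      rw [hxy i j hij, add_zero])
  obtain ⟨Λ, hΛn, hΛ, -, hΛb⟩ := step_main (n := n) isScale_ρN hκ hn (S := S) (b := b)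
    (χ := lev c₀) (s := s) (by omega) (by
      intro x hx hxS
      have := hb _ (mem_of_tuple hxS) (card_tuple hx)
      rwa [ofTup_image hx] at this)
  refine lev_contra hc₀ hΛn ?_ hΛb
  intro l hl
  obtain ⟨x, hx, y, hy, hxy, rfl⟩ := hΛ l hl
  refine ⟨Nat.log 2 (y - x), ?_, rfl⟩
  have hy' : y < 2 ^ m := by simpa using hS hy
  apply Nat.log_lt_of_lt_pow (by omega)
  omega

/-- (2) Scale colourings: the upper bound. -/
theorem scale_upper {r n m : ℕ} (h : Arrow (κ := κ) AllCol r n m) :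
    Arrow (κ := κ) ScaleCol (r + 1) (n + 1) (2 ^ m) := by
  classical
  intro c hc
  set g : ℕ → ℕ := fun j => 2 ^ (j + 1) - 1 with hg
  have hpow : ∀ j, 1 ≤ 2 ^ j := fun j => Nat.one_le_two_pow
  have hgm : StrictMono g := by
    intro i j hij
    have h1 : 2 ^ (i + 1) < 2 ^ (j + 1) := Nat.pow_lt_pow_right (by norm_num) (by omega)
    have := hpow (i + 1)
    simp only [hg]
    omega
  have hg0 : ∀ j, 0 < g j := by
    intro j
    have : 2 ^ 1 ≤ 2 ^ (j + 1) := Nat.pow_le_pow_right (by norm_num) (by omega)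
    simp only [hg]
    omega
  have hlog0 : ∀ j, Nat.log 2 (g j - 0) = j := by
    intro j
    have h1 : 2 ^ (j + 1) = 2 * 2 ^ j := by rw [pow_succ]; ring
    have := hpow j
    rw [Nat.sub_zero]
    simp only [hg]
    apply (Nat.log_eq_iff (Or.inr ⟨by norm_num, by omega⟩)).2
    constructor <;> omega
  have hlog : ∀ i j, i < j → Nat.log 2 (g j - g i) = j := by
    intro i j hij
    have h1 : 2 ^ (j + 1) = 2 * 2 ^ j := by rw [pow_succ]; ring
    have h2 : 2 ^ (i + 1) ≤ 2 ^ j := Nat.pow_le_pow_right (by norm_num) (by omega)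
    have := hpow j
    have := hpow (i + 1)
    simp only [hg]
    apply (Nat.log_eq_iff (Or.inr ⟨by norm_num, by omega⟩)).2
    constructor <;> omega
  obtain ⟨H, hH, hHn, b, hb⟩ := h (fun J => c (insert 0 (J.image g))) trivial
  have hgH : (0 : ℕ) ∉ H.image g := by
    intro h0
    obtain ⟨j, -, hj⟩ := mem_image.1 h0
    have := hg0 j
    omega
  refine ⟨insert 0 (H.image g), ?_, ?_, b, ?_⟩
  · intro x hx
    rcases mem_insert.1 hx with rfl | hx
    · simp
    · obtain ⟨j, hj, rfl⟩ := mem_image.1 hx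
      have hj' : j < m := by simpa using hH hj
      have : 2 ^ (j + 1) ≤ 2 ^ m := Nat.pow_le_pow_right (by norm_num) (by omega)
      have := hpow (j + 1)
      simp only [hg, mem_range]
      omega
  · rw [card_insert_of_notMem hgH, card_image_of_injective _ hgm.injective, hHn]
  · intro A hA hAr
    set x := A.orderEmbOfFin hAr with hx
    have hxm : StrictMono (x : Fin (r + 1) → ℕ) := x.strictMono
    have hxA : ∀ i, x i ∈ A := fun i => orderEmbOfFin_mem _ _ _
    have hxs : ∀ i : Fin r, ∃ j ∈ H, x i.succ = g j := by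
      intro i
      rcases mem_insert.1 (hA (hxA i.succ)) with h0 | h1
      · have := hxm (Fin.succ_pos i)
        omega
      · obtain ⟨j, hj, e⟩ := mem_image.1 h1
        exact ⟨j, hj, e.symm⟩
    choose a haH ha using hxs
    have ham : StrictMono a := by
      intro i j hij
      have := hxm (Fin.succ_lt_succ_iff.2 hij)
      rw [ha, ha] at this
      exact hgm.lt_iff_lt.1 this
    have hA2 : A = univ.image x := (univ_image_orderEmb A hAr).symm
    have hbound : ∀ y ∈ insert 0 (H.image g), y < 2 ^ m := by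
      intro y hy
      rcases mem_insert.1 hy with rfl | hy
      · exact hpow m
      · obtain ⟨j, hj, rfl⟩ := mem_image.1 hy
        have hj' : j < m := by simpa using hH hj
        have : 2 ^ (j + 1) ≤ 2 ^ m := Nat.pow_le_pow_right (by norm_num) (by omega)
        have := hpow (j + 1)
        simp only [hg]
        omega
    have hy : StrictMono (Fin.cons 0 (fun i => g (a i)) : Fin (r + 1) → ℕ) :=
      strictMono_cons (fun i j hij => hgm (ham hij)) (fun i => hg0 _)
    have e := hc x (Fin.cons 0 (fun i => g (a i))) hxm hy (fun i => hbound _ (hA (hxA i)))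
      (fun i => by
        refine Fin.cases ?_ (fun i => ?_) i
        · exact hpow m
        · exact hbound _ (mem_insert_of_mem (mem_image_of_mem _ (haH i))))
      (by
        intro i j hij
        refine Fin.cases (fun hij => ?_) (fun i hij => ?_) i hij
        · refine Fin.cases (fun hij => absurd hij (lt_irrefl _)) (fun j _ => ?_) j hij
          rw [Fin.cons_zero, Fin.cons_succ, hlog0, ha j]
          rcases mem_insert.1 (hA (hxA 0)) with h0 | h1
          · rw [h0, hlog0]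
          · obtain ⟨k, hk, e⟩ := mem_image.1 h1
            rw [← e]
            apply hlog
            have := hxm (Fin.succ_pos j)
            rw [ha j, ← e] at this
            exact hgm.lt_iff_lt.1 this
        · refine Fin.cases (fun hij => absurd hij (Fin.not_lt_zero _)) (fun j _ => ?_) j hij
          rw [Fin.cons_succ, Fin.cons_succ, ha, ha])
    rw [hA2, e]
    have e3 : univ.image (Fin.cons 0 (fun i => g (a i)) : Fin (r + 1) → ℕ) =
        insert 0 ((univ.image a).image g) := by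
      ext y
      simp only [mem_image, mem_univ, true_and, mem_insert]
      constructor
      · rintro ⟨i, rfl⟩
        refine Fin.cases (Or.inl rfl) (fun i => Or.inr ⟨a i, ⟨i, rfl⟩, rfl⟩) i
      · rintro (rfl | ⟨_, ⟨i, rfl⟩, rfl⟩)
        · exact ⟨0, rfl⟩
        · exact ⟨i.succ, rfl⟩
    rw [e3]
    exact hb (univ.image a) (mem_of_tuple haH) (card_tuple ham)

/-- The levels of the levels. -/
theorem affine_aux {S : Finset ℕ} {M : ℕ} (hS : S ⊆ range (2 ^ M)) {Λ Λ' : Finset ℝ}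
    (hΛ : ∀ l ∈ Λ, ∃ x ∈ S, ∃ y ∈ S, x < y ∧ l = ρL x y)
    (hΛ1 : ∀ l ∈ Λ, ∀ l' ∈ Λ, l < l' → l + 1 ≤ l')
    (hΛ' : ∀ l ∈ Λ', ∃ x ∈ Λ, ∃ y ∈ Λ, x < y ∧ l = ρR x y) {m : ℕ} (hM : M = 2 ^ m) :
    ∀ l ∈ Λ', ∃ j : ℕ, j < m ∧ l = j := by
  intro l hl
  obtain ⟨x, hx, y, hy, hxy, rfl⟩ := hΛ' l hl
  have h1 : ∀ z ∈ Λ, 0 ≤ z ∧ z < M := by
    intro z hz
    obtain ⟨u, hu, v, hv, huv, rfl⟩ := hΛ z hz
    have hv' : v < 2 ^ M := by simpa using hS hv
    have e1 : (1 : ℝ) ≤ (v : ℝ) - u := by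
      have : (u : ℝ) + 1 ≤ v := by exact_mod_cast huv
      linarith
    have e2 : (v : ℝ) - u < 2 ^ M := by
      have : (v : ℝ) < 2 ^ M := by exact_mod_cast hv'
      have : (0 : ℝ) ≤ u := Nat.cast_nonneg _
      linarith
    unfold ρL
    refine ⟨Real.logb_nonneg (by norm_num) e1, ?_⟩
    rw [Real.logb_lt_iff_lt_rpow (by norm_num) (by linarith), Real.rpow_natCast]
    exact e2
  have h2 : x + 1 ≤ y := hΛ1 x hx y hy hxy
  have h3 : y - x < 2 ^ m := by
    have := (h1 y hy).2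
    have := (h1 x hx).1
    rw [hM] at *
    push_cast at *
    linarith
  have h4 : 0 ≤ Real.logb 2 (y - x) := Real.logb_nonneg (by norm_num) (by linarith)
  have h5 : Real.logb 2 (y - x) < m := by
    rw [Real.logb_lt_iff_lt_rpow (by norm_num) (by linarith), Real.rpow_natCast]
    exact h3
  refine ⟨⌊Real.logb 2 (y - x)⌋.toNat, ?_, ?_⟩
  · have : ⌊Real.logb 2 (y - x)⌋ < m := Int.floor_lt.2 (by exact_mod_cast h5)
    have h0 : 0 ≤ ⌊Real.logb 2 (y - x)⌋ := Int.floor_nonneg.2 h4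
    omega
  · unfold ρR
    have h0 : 0 ≤ ⌊Real.logb 2 (y - x)⌋ := Int.floor_nonneg.2 h4
    have : ((⌊Real.logb 2 (y - x)⌋.toNat : ℤ) : ℝ) = (⌊Real.logb 2 (y - x)⌋ : ℝ) := by
      rw [Int.toNat_of_nonneg h0]
    rw [← this]
    exact Int.cast_natCast _

theorem affInv_stepF {κ₀ κ₁ : κ} {χ : Finset ℝ → κ} {s N : ℕ}
    (hχ : ∀ (t : ℝ) (T : Finset ℝ), χ (T.image (· + t)) = χ T) :
    AffInv (s + 4) N (ofTup (s + 4) κ₀ (stepF ρL κ₀ κ₁ χ s)) := by
  intro x y hx hy _ _ hxy
  obtain ⟨α, β, hα, hxy⟩ := hxy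
  rw [ofTup_image hx, ofTup_image hy]
  symm
  apply stepF_congr (Real.logb 2 α) (hχ _)
  intro i j hij
  have hij' : (x i : ℝ) < x j := by exact_mod_cast hx hij
  unfold ρL
  rw [hxy i, hxy j, show α * (x j : ℝ) + β - (α * x i + β) = ((x j : ℝ) - x i) * α by ring,
    Real.logb_mul (by linarith) hα.ne']

/-- (3) Affinely invariant colourings: the lower bound. -/
theorem aff_lower {κ₀ κ₁ : κ} (hκ : κ₀ ≠ κ₁) {s n m : ℕ} (hn : 1 ≤ n)
    (h : ¬ Arrow (κ := κ) AllCol (s + 3) n m) :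
    ¬ Arrow (κ := κ) AffInv (s + 5) (4 * n + 3 * s + 7) (2 ^ 2 ^ m) := by
  obtain ⟨c₀, hc₀⟩ := not_arrow_all h
  intro hA
  obtain ⟨S, hS, hSn, b, hb⟩ := hA (ofTup (s + 5) κ₀ (stepF ρL κ₀ κ₁
    (ofTup (s + 4) κ₀ (stepF ρR κ₀ κ₁ (lev c₀) s)) (s + 1)))
    (affInv_stepF fun t T => stepF_trans t T)
  obtain ⟨Λ, hΛn, hΛ, hΛ1, hΛb⟩ := step_main (n := 2 * n + s + 2) isScale_ρL hκ (by omega)
    (S := S) (b := b) (χ := ofTup (s + 4) κ₀ (stepF ρR κ₀ κ₁ (lev c₀) s)) (s := s + 1)
    (by omega) (by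
      intro x hx hxS
      have := hb _ (mem_of_tuple hxS) (card_tuple hx)
      rwa [ofTup_image hx] at this)
  obtain ⟨Λ', hΛ'n, hΛ', -, hΛ'b⟩ := step_main (n := n) isScale_ρR hκ hn (S := Λ) (b := b)
    (χ := lev c₀) (s := s) (by omega) (by
      intro x hx hxS
      have := hΛb (univ.image x) (by
        intro a ha
        obtain ⟨i, -, rfl⟩ := mem_image.1 ha
        exact hxS i) (card_tuple hx)
      rwa [ofTup_image hx] at this)
  exact lev_contra hc₀ hΛ'n (affine_aux hS hΛ hΛ1 hΛ' rfl) hΛ'b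

/-- (4) Triples: scale colourings with twice as many colours. -/
theorem pair_scale {n m : ℕ} (hn : 1 ≤ n) [Nonempty κ]
    (h : ¬ Arrow (κ := κ) AllCol 2 n m) :
    ¬ Arrow (κ := Bool × κ) ScaleCol 3 (n + 1) (2 ^ m) := by
  obtain ⟨c₀, hc₀⟩ := not_arrow_all h
  obtain ⟨κ₀⟩ := ‹Nonempty κ›
  intro hA
  obtain ⟨S, hS, hSn, b, hb⟩ := hA (ofTup 3 (true, κ₀) (pairF ρN (lev c₀))) (by
    intro x y hx hy _ _ hxy
    rw [ofTup_image hx, ofTup_image hy]
    apply pairF_congr
    intro i j hij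
    unfold ρN
    rw [hxy i j hij])
  obtain ⟨Λ, hΛn, hΛ, -, b', hΛb⟩ := pair_main (n := n) isScale_ρN hn (S := S) (b := b)
    (χ := lev c₀) (by omega) (by
      intro x hx hxS
      have := hb _ (mem_of_tuple hxS) (card_tuple hx)
      rwa [ofTup_image hx] at this)
  refine lev_contra hc₀ hΛn ?_ hΛb
  intro l hl
  obtain ⟨x, hx, y, hy, hxy, rfl⟩ := hΛ l hl
  refine ⟨Nat.log 2 (y - x), ?_, rfl⟩
  have hy' : y < 2 ^ m := by simpa using hS hy
  apply Nat.log_lt_of_lt_pow (by omega)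
  omega

/-- (5) Quadruples: affinely invariant colourings with twice as many colours. -/
theorem pair_aff {n m : ℕ} (hn : 1 ≤ n) [Nonempty κ]
    (h : ¬ Arrow (κ := κ) AllCol 2 n m) :
    ¬ Arrow (κ := Bool × κ) AffInv 4 (2 * n + 4) (2 ^ 2 ^ m) := by
  obtain ⟨c₀, hc₀⟩ := not_arrow_all h
  obtain ⟨k⟩ := ‹Nonempty κ›
  have hκ : ((true, k) : Bool × κ) ≠ (false, k) := by simp
  intro hA
  obtain ⟨S, hS, hSn, b, hb⟩ := hA (ofTup 4 (true, k) (stepF ρL (true, k) (false, k)
    (ofTup 3 (true, k) (pairF ρR (lev c₀))) 0))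
    (affInv_stepF fun t T => pairF_trans t T)
  obtain ⟨Λ, hΛn, hΛ, hΛ1, hΛb⟩ := step_main (n := n + 1) isScale_ρL hκ (by omega)
    (S := S) (b := b) (χ := ofTup 3 (true, k) (pairF ρR (lev c₀))) (s := 0)
    (by omega) (by
      intro x hx hxS
      have := hb _ (mem_of_tuple hxS) (card_tuple hx)
      rwa [ofTup_image hx] at this)
  obtain ⟨Λ', hΛ'n, hΛ', -, b', hΛ'b⟩ := pair_main (n := n) isScale_ρR hn (S := Λ) (b := b)
    (χ := lev c₀) (by omega) (by
      intro x hx hxS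
      have := hΛb (univ.image x) (by
        intro a ha
        obtain ⟨i, -, rfl⟩ := mem_image.1 ha
        exact hxS i) (card_tuple hx)
      rwa [ofTup_image hx] at this)
  exact lev_contra hc₀ hΛ'n (affine_aux hS hΛ hΛ1 hΛ' rfl) hΛ'b

end Pool.Agent.N584.TI
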