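import Pool.Agent.N584.TI.Arrow

/-!
# The probabilistic lower bound
-/

set_option autoImplicit false

namespace Pool.Agent.N584.TI

open Finset

theorem card_fixed {α : Type*} [Fintype α] [DecidableEq α] (B : Finset α) (b : Bool) :
    (univ.filter (fun f : α → Bool => ∀ a ∈ B, f a = b)).card = 2 ^ (Fintype.card α - B.card) := by
  have e : univ.filter (fun f : α → Bool => ∀ a ∈ B, f a = b) =
      Fintype.piFinset (fun a => if a ∈ B then ({b} : Finset Bool) else univ) := by
    ext f
    simp only [mem_filter, mem_univ, true_and, Fintype.mem_piFinset]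
    constructor
    · intro h a
      by_cases ha : a ∈ B
      · simp [ha, h a ha]
      · simp [ha]
    · intro h a ha
      have := h a
      simpa [ha] using this
  rw [e, Fintype.card_piFinset]
  have e2 : ∀ a : α, (if a ∈ B then ({b} : Finset Bool) else univ).card =
      if a ∈ B then 1 else 2 := by
    intro a
    split_ifs <;> simp
  simp_rw [e2]
  rw [prod_ite]
  simp only [prod_const_one, one_mul, prod_const]
  congr 1
  rw [← card_compl, compl_eq_univ_sdiff]
  congr 1
  ext a
  simp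

theorem count_lower {r n m : ℕ} (h : 2 * m.choose n < 2 ^ (n.choose r)) :
    ¬ Arrow (κ := Bool) AllCol r n m := by
  classical
  intro hA
  by_cases hnm : n ≤ m
  swap
  · obtain ⟨S, hS, hSn, -⟩ := hA (fun _ => true) trivial
    have := card_le_card hS
    rw [card_range] at this
    omega
  set α := {A // A ∈ powersetCard r (range m)} with hα
  have hαc : Fintype.card α = m.choose r := by
    show Fintype.card {A // A ∈ powersetCard r (range m)} = _
    rw [Fintype.card_coe, card_powersetCard, card_range]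
  let B : Finset ℕ → Finset α := fun S => univ.filter (fun a => a.1 ⊆ S)
  have hB : ∀ S ∈ powersetCard n (range m), (B S).card = n.choose r := by
    intro S hS
    obtain ⟨hS1, hS2⟩ := mem_powersetCard.1 hS
    have : (B S).card = (powersetCard r S).card := by
      apply card_bij (fun a _ => a.1)
      · intro a ha
        have h1 := (mem_filter.1 ha).2
        exact mem_powersetCard.2 ⟨h1, (mem_powersetCard.1 a.2).2⟩
      · intro a _ a' _ h
        exact Subtype.ext h
      · intro A hA'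
        obtain ⟨h1, h2⟩ := mem_powersetCard.1 hA'
        exact ⟨⟨A, mem_powersetCard.2 ⟨h1.trans hS1, h2⟩⟩, by simp [B, h1], rfl⟩
    rw [this, card_powersetCard, hS2]
  have hcov : (univ : Finset (α → Bool)) ⊆ (powersetCard n (range m) ×ˢ (univ : Finset Bool)).biUnion
      (fun p => univ.filter (fun f : α → Bool => ∀ a ∈ B p.1, f a = p.2)) := by
    intro f _
    obtain ⟨S, hS, hSn, b, hb⟩ := hA
      (fun A => if h : A ∈ powersetCard r (range m) then f ⟨A, h⟩ else true) trivial
    refine mem_biUnion.2 ⟨(S, b), mem_product.2 ⟨mem_powersetCard.2 ⟨hS, hSn⟩, mem_univ _⟩, ?_⟩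
    refine mem_filter.2 ⟨mem_univ _, ?_⟩
    intro a ha
    have h1 : a.1 ⊆ S := (mem_filter.1 ha).2
    have h2 := hb a.1 h1 (mem_powersetCard.1 a.2).2
    rw [dif_pos a.2] at h2
    exact h2
  have h1 := (card_le_card hcov).trans card_biUnion_le
  have h2 : ∑ p ∈ powersetCard n (range m) ×ˢ (univ : Finset Bool),
      (univ.filter (fun f : α → Bool => ∀ a ∈ B p.1, f a = p.2)).card =
      (m.choose n * 2) * 2 ^ (m.choose r - n.choose r) := by
    rw [sum_congr rfl (g := fun _ => 2 ^ (m.choose r - n.choose r))]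
    · rw [sum_const, card_product, card_powersetCard, card_range, card_univ, Fintype.card_bool,
        smul_eq_mul]
    · intro p hp
      rw [card_fixed, hB _ (mem_product.1 hp).1, hαc]
  rw [h2, card_univ, Fintype.card_fun, Fintype.card_bool, hαc] at h1
  have h3 : n.choose r ≤ m.choose r := Nat.choose_le_choose r hnm
  have h4 : 2 ^ m.choose r = 2 ^ n.choose r * 2 ^ (m.choose r - n.choose r) := by
    rw [← pow_add]; congr 1; omega
  rw [h4] at h1
  have h5 := Nat.le_of_mul_le_mul_right h1 (by positivity)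
  omega

/-- Two colours, pairs. -/
theorem two_lower (n : ℕ) (hn : 4 ≤ n) : ¬ Arrow (κ := Bool) AllCol 2 n (2 ^ (n / 4)) := by
  apply count_lower
  have h1 : (2 ^ (n / 4)).choose n ≤ (2 ^ (n / 4)) ^ n := Nat.choose_le_pow _ _
  have h2 : 1 + n / 4 * n < n.choose 2 := by
    rw [Nat.choose_two_right]
    obtain ⟨q, t, ht, rfl⟩ : ∃ q t, t < 4 ∧ n = 4 * q + t := ⟨n / 4, n % 4, by omega, by omega⟩
    have hq : 1 ≤ q := by omega
    rw [show (4 * q + t) / 4 = q by omega]
    rw [Nat.lt_iff_add_one_le, Nat.le_div_iff_mul_le (by norm_num)]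
    obtain ⟨p, rfl⟩ : ∃ p, q = p + 1 := ⟨q - 1, by omega⟩
    rw [show 4 * (p + 1) + t - 1 = 4 * p + t + 3 by omega]
    nlinarith
  calc 2 * (2 ^ (n / 4)).choose n ≤ 2 * (2 ^ (n / 4)) ^ n := Nat.mul_le_mul_left _ h1
    _ = 2 ^ (1 + n / 4 * n) := by rw [pow_add, pow_one, ← pow_mul]
    _ < 2 ^ n.choose 2 := Nat.pow_lt_pow_right (by norm_num) h2

/-- Two colours, triples. -/
theorem three_lower (n : ℕ) (hn : 6 ≤ n) :
    ¬ Arrow (κ := Bool) AllCol 3 n (2 ^ (n ^ 2 / 12)) := by
  apply count_lower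
  have h1 : (2 ^ (n ^ 2 / 12)).choose n ≤ (2 ^ (n ^ 2 / 12)) ^ n := Nat.choose_le_pow _ _
  have h2 : 1 + n ^ 2 / 12 * n < n.choose 3 := by
    obtain ⟨p, rfl⟩ : ∃ p, n = p + 6 := ⟨n - 6, by omega⟩
    have e : (p + 6).choose 3 * 6 = (p + 6) * (p + 5) * (p + 4) := by
      have := Nat.descFactorial_eq_factorial_mul_choose (p + 6) 3
      simp only [Nat.descFactorial, Nat.factorial] at this
      have e1 : p + 6 - 2 = p + 4 := by omega
      have e2 : p + 6 - 1 = p + 5 := by omega
      have e3 : p + 6 - 0 = p + 6 := by omega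
      rw [e1, e2, e3] at this
      linarith
    have h3 : (p + 6) ^ 2 / 12 * 12 ≤ (p + 6) ^ 2 := Nat.div_mul_le_self _ _
    have h4 : ((p + 6) ^ 2 / 12 * (p + 6)) * 12 ≤ (p + 6) ^ 3 := by
      calc ((p + 6) ^ 2 / 12 * (p + 6)) * 12 = ((p + 6) ^ 2 / 12 * 12) * (p + 6) := by ring
        _ ≤ (p + 6) ^ 2 * (p + 6) := Nat.mul_le_mul_right _ h3
        _ = (p + 6) ^ 3 := by ring
    nlinarith
  calc 2 * (2 ^ (n ^ 2 / 12)).choose n ≤ 2 * (2 ^ (n ^ 2 / 12)) ^ n := Nat.mul_le_mul_left _ h1
    _ = 2 ^ (1 + n ^ 2 / 12 * n) := by rw [pow_add, pow_one, ← pow_mul]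
    _ < 2 ^ n.choose 3 := Nat.pow_lt_pow_right (by norm_num) h2

end Pool.Agent.N584.TI
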