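import Pool.Agent.N584.TI.Numbers

/-!
# Tower growth
-/

set_option autoImplicit false

namespace Pool.Agent.N584.TI

open Finset

/-- `exp_k (c n ^ e) ≤ f n` for all large `n`. -/
def Lo (e k : ℕ) (f : ℕ → ℕ) : Prop :=
  ∃ c : ℝ, 0 < c ∧ ∃ N : ℕ, ∀ n : ℕ, N ≤ n → Real.exp^[k] (c * (n : ℝ) ^ e) ≤ f n

def Up (k : ℕ) (f : ℕ → ℕ) : Prop :=
  ∃ C : ℝ, 0 < C ∧ ∃ N : ℕ, ∀ n : ℕ, N ≤ n → (f n : ℝ) ≤ Real.exp^[k] (C * (n : ℝ))

theorem E_mono (k : ℕ) : StrictMono (Real.exp^[k]) := Real.exp_strictMono.iterate k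

theorem le_E (k : ℕ) (x : ℝ) : x ≤ Real.exp^[k] x := by
  induction k with
  | zero => exact le_rfl
  | succ k ih =>
    rw [Function.iterate_succ_apply']
    have := Real.add_one_le_exp (Real.exp^[k] x)
    linarith

theorem le_log_iter (k : ℕ) : ∀ (x y : ℝ), Real.exp^[k] 1 ≤ x →
    (y ≤ Real.log^[k] x ↔ Real.exp^[k] y ≤ x) := by
  induction k with
  | zero => intro x y _; rfl
  | succ k ih =>
    intro x y hx
    rw [Function.iterate_succ_apply' Real.exp] at hx ⊢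
    rw [Function.iterate_succ_apply Real.log]
    have hx0 : 0 < x := lt_of_lt_of_le (Real.exp_pos _) hx
    rw [ih _ _ ((Real.le_log_iff_exp_le hx0).2 hx), Real.le_log_iff_exp_le hx0]

theorem log_iter_le (k : ℕ) : ∀ (x y : ℝ), Real.exp^[k] 1 ≤ x →
    (Real.log^[k] x ≤ y ↔ x ≤ Real.exp^[k] y) := by
  induction k with
  | zero => intro x y _; rfl
  | succ k ih =>
    intro x y hx
    rw [Function.iterate_succ_apply' Real.exp] at hx ⊢
    rw [Function.iterate_succ_apply Real.log]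
    have hx0 : 0 < x := lt_of_lt_of_le (Real.exp_pos _) hx
    rw [ih _ _ ((Real.le_log_iff_exp_le hx0).2 hx), Real.log_le_iff_le_exp hx0]

theorem E_ge_two {k : ℕ} (hk : 1 ≤ k) {y : ℝ} (hy : 1 ≤ y) : 2 ≤ Real.exp^[k] y := by
  obtain ⟨j, rfl⟩ : ∃ j, k = j + 1 := ⟨k - 1, by omega⟩
  rw [Function.iterate_succ_apply']
  have h1 := Real.add_one_le_exp (Real.exp^[j] y)
  have h2 := le_E j y
  linarith

theorem E_pow {k : ℕ} (hk : 1 ≤ k) {a : ℕ} (ha : 1 ≤ a) {y : ℝ} (hy : 1 ≤ y) :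
    (Real.exp^[k] y) ^ a ≤ Real.exp^[k] (a * y) := by
  induction k, hk using Nat.le_induction with
  | base =>
    simp only [Function.iterate_one]
    rw [Real.exp_nat_mul]
  | succ k hk ih =>
    rw [Function.iterate_succ_apply', Function.iterate_succ_apply', ← Real.exp_nat_mul]
    apply Real.exp_le_exp.2
    refine le_trans ?_ ih
    have h2 := E_ge_two hk hy
    set E := Real.exp^[k] y with hE
    have h3 : (a : ℝ) ≤ E ^ (a - 1) := by
      have h4 : a ≤ 2 ^ (a - 1) := by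
        obtain ⟨b, rfl⟩ : ∃ b, a = b + 1 := ⟨a - 1, by omega⟩
        exact Nat.lt_two_pow_self
      calc (a : ℝ) ≤ 2 ^ (a - 1) := by exact_mod_cast h4
        _ ≤ E ^ (a - 1) := pow_le_pow_left₀ (by norm_num) h2 _
    calc (a : ℝ) * E ≤ E ^ (a - 1) * E := mul_le_mul_of_nonneg_right h3 (by linarith)
      _ = E ^ a := by rw [← pow_succ]; congr 1; omega

theorem Lo.mono {e k : ℕ} {f g : ℕ → ℕ} (h : Lo e k f) (hfg : ∀ n, f n ≤ g n) : Lo e k g := by
  obtain ⟨c, hc, N, hN⟩ := h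
  exact ⟨c, hc, N, fun n hn => (hN n hn).trans (by exact_mod_cast hfg n)⟩

theorem Up.mono {k : ℕ} {f g : ℕ → ℕ} (h : Up k g) (hfg : ∀ n, f n ≤ g n) : Up k f := by
  obtain ⟨c, hc, N, hN⟩ := h
  exact ⟨c, hc, N, fun n hn => le_trans (by exact_mod_cast hfg n) (hN n hn)⟩

theorem large {k : ℕ} {f : ℕ → ℕ} (hf : ∀ n, n ≤ f n) :
    ∃ N : ℕ, ∀ n : ℕ, N ≤ n → Real.exp^[k] 1 ≤ f n := by
  obtain ⟨N, hN⟩ := exists_nat_ge (Real.exp^[k] 1)
  exact ⟨N, fun n hn => hN.trans (by exact_mod_cast hn.trans (hf n))⟩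

theorem growth_iff {k : ℕ} {f : ℕ → ℕ} (hf : ∀ n, n ≤ f n) :
    Growth f k ↔ Lo 1 k f ∧ Up k f := by
  obtain ⟨M, hM⟩ := large (k := k) hf
  constructor
  · rintro ⟨c, C, hc, hC, N, hN⟩
    refine ⟨⟨c, hc, max M N, fun n hn => ?_⟩, ⟨C, hC, max M N, fun n hn => ?_⟩⟩
    · rw [pow_one]
      exact (le_log_iter k _ _ (hM n (le_of_max_le_left hn))).1 (hN n (le_of_max_le_right hn)).1
    · exact (log_iter_le k _ _ (hM n (le_of_max_le_left hn))).1 (hN n (le_of_max_le_right hn)).2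
  · rintro ⟨⟨c, hc, N, hN⟩, ⟨C, hC, N', hN'⟩⟩
    refine ⟨c, C, hc, hC, max M (max N N'), fun n hn => ⟨?_, ?_⟩⟩
    · have h1 := hN n ((le_max_left N N').trans (le_of_max_le_right hn))
      rw [pow_one] at h1
      exact (le_log_iter k _ _ (hM n (le_of_max_le_left hn))).2 h1
    · exact (log_iter_le k _ _ (hM n (le_of_max_le_left hn))).2
        (hN' n ((le_max_right N N').trans (le_of_max_le_right hn)))

theorem Lo.lower {e k : ℕ} {f : ℕ → ℕ} (hf : ∀ n, n ≤ f n) (h : Lo e k f) :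
    LowerGrowth f k e := by
  obtain ⟨M, hM⟩ := large (k := k) hf
  obtain ⟨c, hc, N, hN⟩ := h
  exact ⟨c, hc, max M N, fun n hn => (le_log_iter k _ _ (hM n (le_of_max_le_left hn))).2
    (hN n (le_of_max_le_right hn))⟩

/-- One exponential more. -/
theorem lo_step {f g : ℕ → ℕ} {e k a b : ℕ} (he : 1 ≤ e) (hk : 1 ≤ k) (ha : 1 ≤ a)
    (hg : Monotone g) (h : ∀ n, 1 ≤ n → 2 ^ (f n - 1) ≤ g (a * n + b)) (hf : Lo e k f) :
    Lo e (k + 1) g := by
  obtain ⟨c, hc, N, hN⟩ := hf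
  obtain ⟨M, hM⟩ := exists_nat_ge (8 / c)
  have ha' : (1 : ℝ) ≤ a := by exact_mod_cast ha
  refine ⟨c / (2 * (2 * a) ^ e), by positivity, a * (N + M + b + 2) + b, ?_⟩
  intro n' hn'
  set n := (n' - b) / a with hn
  have h1 : N + M + b + 2 ≤ n := by
    rw [hn, Nat.le_div_iff_mul_le (by omega)]
    rw [mul_comm]
    omega
  have h2 : a * n + b ≤ n' := by
    have : a * ((n' - b) / a) ≤ n' - b := Nat.mul_div_le _ _
    have : b ≤ n' := le_trans (Nat.le_add_left b _) hn'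
    rw [hn]
    omega
  have h3 : n' ≤ 2 * a * n := by
    have h4 : n' - b < a * ((n' - b) / a + 1) := by
      have := Nat.lt_mul_div_succ (n' - b) (show 0 < a by omega)
      exact this
    have h4' : n' - b < a * n + a := by
      rw [hn]
      calc n' - b < a * ((n' - b) / a + 1) := h4
        _ = a * ((n' - b) / a) + a := by ring
    have h6 : a + b ≤ a * n := by
      calc a + b ≤ a + a * b := by
            have : b ≤ a * b := Nat.le_mul_of_pos_left b ha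
            omega
        _ = a * (b + 1) := by ring
        _ ≤ a * n := Nat.mul_le_mul_left _ (by omega)
    have h7 : 2 * a * n = a * n + a * n := by ring
    rw [h7]
    clear_value n
    generalize a * n = w at *
    omega
  set y : ℝ := c / 2 * (n : ℝ) ^ e with hy
  have hy4 : 4 ≤ y := by
    have h8 : (M : ℝ) ≤ n := by exact_mod_cast (by omega : M ≤ n)
    have h9 : (1 : ℝ) ≤ n := by exact_mod_cast (by omega : 1 ≤ n)
    have h10 : (n : ℝ) ≤ (n : ℝ) ^ e := le_self_pow₀ h9 (by omega)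
    have h11 : 8 / c ≤ (n : ℝ) ^ e := hM.trans (h8.trans h10)
    rw [div_le_iff₀ hc] at h11
    rw [hy]
    nlinarith
  have hle : c / (2 * (2 * a) ^ e) * (n' : ℝ) ^ e ≤ y := by
    have h8 : (n' : ℝ) ≤ 2 * a * n := by exact_mod_cast h3
    have h9 : (n' : ℝ) ^ e ≤ (2 * a * n : ℝ) ^ e := pow_le_pow_left₀ (Nat.cast_nonneg _) h8 _
    calc c / (2 * (2 * a) ^ e) * (n' : ℝ) ^ e ≤ c / (2 * (2 * a) ^ e) * (2 * a * n : ℝ) ^ e :=
          mul_le_mul_of_nonneg_left h9 (by positivity)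
      _ = y := by
          rw [hy, mul_pow (2 * (a : ℝ)) (n : ℝ) e]
          have : (2 * (a : ℝ)) ^ e ≠ 0 := by positivity
          field_simp
  have hE : Real.exp^[k] (c / (2 * (2 * a) ^ e) * (n' : ℝ) ^ e) ≤ Real.exp^[k] y :=
    (E_mono k).monotone hle
  have hEy : 4 ≤ Real.exp^[k] y := hy4.trans (le_E k y)
  have hsq : (Real.exp^[k] y) ^ 2 ≤ f n := by
    have h8 := E_pow hk (a := 2) (by norm_num) (y := y) (by linarith)
    have h9 := hN n (by omega)
    have e1 : ((2 : ℕ) : ℝ) * y = c * (n : ℝ) ^ e := by rw [hy]; push_cast; ring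
    rw [e1] at h8
    exact h8.trans h9
  have h12 : 4 * Real.exp^[k] y ≤ f n := by nlinarith
  have h16 : (16 : ℝ) ≤ f n := by nlinarith
  rw [Function.iterate_succ_apply']
  have h17 : (2 : ℝ) ^ (f n - 1) ≤ g n' := by
    exact_mod_cast (h n (by omega)).trans (hg h2)
  refine le_trans ?_ h17
  have h18 : (2 : ℝ) ^ (f n - 1) = Real.exp (Real.log 2 * ((f n : ℝ) - 1)) := by
    rw [← Real.rpow_natCast, Real.rpow_def_of_pos (by norm_num)]
    congr 2
    rw [Nat.cast_sub (by exact_mod_cast (by linarith : (1 : ℝ) ≤ f n))]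
    simp
  rw [h18]
  apply Real.exp_le_exp.2
  have := Real.log_two_gt_d9
  nlinarith

/-- One exponential less. -/
theorem lo_down {f g : ℕ → ℕ} {e k r : ℕ} (he : 1 ≤ e) (hk : 1 ≤ k) (hr : 1 ≤ r)
    (hf : ∀ n, n ≤ f n)
    (h : ∀ n, g n ≤ (2 * 2 ^ (r * f n ^ (r - 1))) ^ f n) (hg : Lo e (k + 1) g) :
    Lo e k f := by
  obtain ⟨c, hc, N, hN⟩ := hg
  obtain ⟨M, hM⟩ := exists_nat_ge ((r + 2) / c)
  have hr2 : (0 : ℝ) < r + 2 := by positivity
  refine ⟨c / (r + 2), by positivity, N + M + r + 2, ?_⟩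
  intro n hn
  have h1 := hN n (by omega)
  set K := f n with hK
  have hK2 : r + 2 ≤ K := by have := hf n; omega
  have h2 : (2 * 2 ^ (r * K ^ (r - 1))) ^ K ≤ 2 ^ (K ^ (r + 2)) := by
    have e1 : (2 * 2 ^ (r * K ^ (r - 1))) ^ K = 2 ^ ((1 + r * K ^ (r - 1)) * K) := by
      conv_rhs => rw [pow_mul, pow_add, pow_one]
    rw [e1]
    apply Nat.pow_le_pow_right (by norm_num)
    have h3 : 1 ≤ K ^ (r - 1) := Nat.one_le_pow _ _ (by omega)
    calc (1 + r * K ^ (r - 1)) * K ≤ ((1 + r) * K ^ (r - 1)) * K := by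
          apply Nat.mul_le_mul_right
          nlinarith
      _ ≤ (K ^ 2 * K ^ (r - 1)) * K := by
          apply Nat.mul_le_mul_right
          apply Nat.mul_le_mul_right
          nlinarith
      _ = K ^ (r + 2) := by
          rw [← pow_add, ← pow_succ]
          congr 1
          omega
  have h3 : (g n : ℝ) ≤ Real.exp ((K : ℝ) ^ (r + 2)) := by
    have h4 : (g n : ℝ) ≤ 2 ^ (K ^ (r + 2)) := by exact_mod_cast (h n).trans h2
    refine h4.trans ?_
    have : (2 : ℝ) ≤ Real.exp 1 := by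
      have := Real.add_one_le_exp (1 : ℝ)
      linarith
    calc (2 : ℝ) ^ (K ^ (r + 2)) ≤ (Real.exp 1) ^ (K ^ (r + 2)) :=
          pow_le_pow_left₀ (by norm_num) this _
      _ = Real.exp ((K : ℝ) ^ (r + 2)) := by
          rw [← Real.exp_nat_mul]
          congr 1
          push_cast
          ring
  rw [Function.iterate_succ_apply'] at h1
  have h4 : Real.exp^[k] (c * (n : ℝ) ^ e) ≤ (K : ℝ) ^ (r + 2) :=
    Real.exp_le_exp.1 (h1.trans h3)
  set y : ℝ := c / (r + 2) * (n : ℝ) ^ e with hy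
  have hy1 : 1 ≤ y := by
    have h8 : (M : ℝ) ≤ n := by exact_mod_cast (by omega : M ≤ n)
    have h9 : (1 : ℝ) ≤ n := by exact_mod_cast (by omega : 1 ≤ n)
    have h10 : (n : ℝ) ≤ (n : ℝ) ^ e := le_self_pow₀ h9 (by omega)
    have h11 : (r + 2) / c ≤ (n : ℝ) ^ e := hM.trans (h8.trans h10)
    rw [div_le_iff₀ hc] at h11
    rw [hy, div_mul_eq_mul_div, le_div_iff₀ hr2]
    linarith
  have h5 := E_pow hk (a := r + 2) (by omega) hy1
  have e2 : ((r + 2 : ℕ) : ℝ) * y = c * (n : ℝ) ^ e := by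
    rw [hy]
    push_cast
    field_simp
  rw [e2] at h5
  have h6 := h5.trans h4
  have h7 : 0 ≤ Real.exp^[k] y := by
    have := E_ge_two hk hy1
    linarith
  exact (pow_le_pow_iff_left₀ h7 (Nat.cast_nonneg _) (by omega)).1 h6

end Pool.Agent.N584.TI
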