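import Pool.Agent.N584.TI.Step

/-!
# The stepping-up lemma
-/

set_option autoImplicit false

namespace Pool.Agent.N584.TI

open Finset

variable {X : Type*} [LinearOrder X]

theorem enum (S : Finset X) (hS : S.Nonempty) :
    ∃ s : ℕ → X, (∀ i j, i < j → j < S.card → s i < s j) ∧ ∀ i < S.card, s i ∈ S := by
  obtain ⟨x₀, hx₀⟩ := hS
  refine ⟨fun i => if h : i < S.card then S.orderEmbOfFin rfl ⟨i, h⟩ else x₀, ?_, ?_⟩
  · intro i j hij hj
    have hi : i < S.card := hij.trans hj
    simp only [hi, hj, dif_pos]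
    exact (S.orderEmbOfFin rfl).strictMono hij
  · intro i hi
    simp only [hi, dif_pos]
    exact orderEmbOfFin_mem _ _ _

theorem strictMono_cons {n : ℕ} {f : Fin n → X} (hf : StrictMono f) {a : X} (ha : ∀ i, a < f i) :
    StrictMono (Fin.cons a f : Fin (n + 1) → X) := by
  intro i j hij
  refine Fin.cases ?_ (fun i => ?_) i hij
  · intro h
    refine Fin.cases ?_ (fun j => ?_) j h
    · intro h; exact absurd h (lt_irrefl _)
    · intro _
      simpa using ha j
  · intro h
    refine Fin.cases ?_ (fun j => ?_) j h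
    · intro h; exact absurd h (Fin.not_lt_zero _)
    · intro h
      simpa using hf (Fin.succ_lt_succ_iff.1 h)

theorem strictMono_snoc {n : ℕ} {f : Fin n → X} (hf : StrictMono f) {a : X} (ha : ∀ i, f i < a) :
    StrictMono (Fin.snoc f a : Fin (n + 1) → X) := by
  intro i j hij
  rcases Fin.eq_castSucc_or_eq_last j with ⟨j, rfl⟩ | rfl
  · rcases Fin.eq_castSucc_or_eq_last i with ⟨i, rfl⟩ | rfl
    · simpa using hf (by simpa using hij)
    · exact absurd hij (not_lt.2 (Fin.le_last _))
  · rcases Fin.eq_castSucc_or_eq_last i with ⟨i, rfl⟩ | rfl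
    · simpa using ha i
    · exact absurd hij (lt_irrefl _)

theorem univ_image_orderEmb {α : Type*} [LinearOrder α] {k : ℕ} (A : Finset α) (h : A.card = k) :
    univ.image (A.orderEmbOfFin h) = A := by
  apply eq_of_subset_of_card_le
  · intro x hx
    obtain ⟨i, -, rfl⟩ := mem_image.1 hx
    exact orderEmbOfFin_mem _ _ _
  · rw [card_image_of_injective _ (A.orderEmbOfFin h).injective, card_univ, Fintype.card_fin, h]

variable {κ : Type*} {ρ : X → X → ℝ} {κ₀ κ₁ b : κ} {χ : Finset ℝ → κ} {s n : ℕ} {S : Finset X}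

/-- Pairs of type `PL`: the levels. -/
theorem PL_levels (hρ : IsScale ρ) {T : Finset X} {z : X} (h : PL ρ T z) :
    ∀ a ∈ T, ∀ c ∈ T, a < c → ρ c z + 1 ≤ ρ a z := by
  intro a ha c hc hac
  have h1 := hρ.doub hac (h.1 c hc)
  rwa [min_eq_right (h.2 a ha c hc hac)] at h1

theorem PR_levels (hρ : IsScale ρ) {T : Finset X} {z : X} (h : PR ρ T z) :
    ∀ a ∈ T, ∀ c ∈ T, a < c → ρ z a + 1 ≤ ρ z c := by
  intro a ha c hc hac
  have h1 := hρ.doub (h.1 a ha) hac
  rwa [min_eq_left (h.2 a ha c hc hac)] at h1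

theorem PL_color (hρ : IsScale ρ) {T : Finset X} {z : X} (h : PL ρ T z)
    (a : Fin (s + 3) → X) (ha : StrictMono a) (haT : ∀ i, a i ∈ T) :
    stepF ρ κ₀ κ₁ χ s (Fin.snoc a z) = χ (univ.image fun i => ρ (a i) z) := by
  have hx : StrictMono (Fin.snoc a z : Fin (s + 4) → X) :=
    strictMono_snoc ha fun i => h.1 _ (haT i)
  set x : Fin (s + 4) → X := Fin.snoc a z with hxd
  have x0 : x 0 = a 0 := by
    rw [hxd, show (0 : Fin (s + 4)) = (0 : Fin (s + 3)).castSucc from rfl, Fin.snoc_castSucc]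
  have x1 : x 1 = a 1 := by
    rw [hxd, show (1 : Fin (s + 4)) = (1 : Fin (s + 3)).castSucc from rfl, Fin.snoc_castSucc]
  have x2 : x 2 = a 2 := by
    rw [hxd, show (2 : Fin (s + 4)) = (2 : Fin (s + 3)).castSucc from rfl, Fin.snoc_castSucc]
  have xl : x (Fin.last _) = z := by rw [hxd, Fin.snoc_last]
  have h01 : a 0 < a 1 := ha (by
    rw [Fin.lt_def]
    show 0 % (s + 3) < 1 % (s + 3)
    rw [Nat.mod_eq_of_lt, Nat.mod_eq_of_lt] <;> omega)
  have h12 : a 1 < a 2 := ha (by
    rw [Fin.lt_def]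
    show 1 % (s + 3) < 2 % (s + 3)
    rw [Nat.mod_eq_of_lt, Nat.mod_eq_of_lt] <;> omega)
  have h23 : x 2 < x 3 := hx (by
    rw [Fin.lt_def]
    show 2 % (s + 4) < 3 % (s + 4)
    rw [Nat.mod_eq_of_lt, Nat.mod_eq_of_lt] <;> omega)
  have h3z : x 3 ≤ z := by rw [← xl]; exact hx.monotone (Fin.le_last _)
  have e2 : ρ (a 1) (a 2) ≤ ρ (a 1) z := hρ.mono le_rfl h12 (h.1 _ (haT _)).le
  have e2' := h.2 _ (haT 0) _ (haT 1) h01
  have e3' := h.2 _ (haT 1) _ (haT 2) h12
  have e3 : ρ (x 2) (x 3) ≤ ρ (a 2) z := by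
    have := hρ.mono (le_refl (x 2)) h23 h3z
    rwa [x2] at this ⊢
  have e4 := PL_levels hρ h _ (haT 1) _ (haT 2) h12
  unfold stepF
  rw [x0, x1, x2] at *
  rw [if_neg, if_neg, if_pos]
  · congr 1
    rw [xl]
    apply image_congr
    intro i _
    simp only [hxd, Fin.snoc_castSucc]
  · linarith
  · intro hh; linarith [hh.2]
  · intro hh; linarith [hh.1]

theorem PR_color (hρ : IsScale ρ) {T : Finset X} {z : X} (h : PR ρ T z)
    (a : Fin (s + 3) → X) (ha : StrictMono a) (haT : ∀ i, a i ∈ T) :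
    stepF ρ κ₀ κ₁ χ s (Fin.cons z a) = χ (univ.image fun i => ρ z (a i)) := by
  set x : Fin (s + 4) → X := Fin.cons z a with hxd
  have x0 : x 0 = z := rfl
  have x1 : x 1 = a 0 := rfl
  have x2 : x 2 = a 1 := rfl
  have x3 : x 3 = a 2 := rfl
  have h01 : a 0 < a 1 := ha (by
    rw [Fin.lt_def]
    show 0 % (s + 3) < 1 % (s + 3)
    rw [Nat.mod_eq_of_lt, Nat.mod_eq_of_lt] <;> omega)
  have h12 : a 1 < a 2 := ha (by
    rw [Fin.lt_def]
    show 1 % (s + 3) < 2 % (s + 3)
    rw [Nat.mod_eq_of_lt, Nat.mod_eq_of_lt] <;> omega)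
  have e1 := h.2 _ (haT 0) _ (haT 1) h01
  have e2 : ρ (a 0) (a 1) ≤ ρ z (a 1) := hρ.mono (h.1 _ (haT _)).le h01 le_rfl
  have e3 := h.2 _ (haT 1) _ (haT 2) h12
  unfold stepF
  rw [x0, x1, x2, x3, if_neg, if_neg, if_neg]
  · congr 1
  · intro hh; linarith
  · intro hh; linarith [hh.1]
  · intro hh; linarith [hh.2]

/-- Transfer of homogeneity along a strictly monotone or antitone level map. -/
theorem homog_image {T : Finset X} {f : X → ℝ} (hinj : Set.InjOn f (T : Set X)) {k : ℕ}
    (h : ∀ a : Fin k → X, StrictMono a → (∀ i, a i ∈ T) → χ (univ.image fun i => f (a i)) = b) :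
    ∀ A ⊆ T.image f, A.card = k → χ A = b := by
  classical
  intro A hA hAc
  obtain ⟨A', hA', rfl⟩ := subset_image_iff.1 hA
  have hc : A'.card = k := by
    rw [card_image_of_injOn (hinj.mono (by exact_mod_cast hA'))] at hAc
    exact hAc
  have := h (A'.orderEmbOfFin hc) (A'.orderEmbOfFin hc).strictMono
    (fun i => hA' (orderEmbOfFin_mem _ _ _))
  rw [← this]
  congr 1
  conv_lhs => rw [← univ_image_orderEmb A' hc]
  rw [image_image]
  rfl

/-- Four points followed by `s` further points. -/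
theorem four_tuple {t : ℕ → X} {K : ℕ} (hs : ∀ i j, i < j → j < K → t i < t j)
    {i j l m k : ℕ} (hij : i < j) (hjl : j < l) (hlm : l < m) (hmk : m < k) (hk : k + s ≤ K) :
    ∃ x : Fin (s + 4) → X, StrictMono x ∧ (∀ u, ∃ v < K, x u = t v) ∧ x 0 = t i ∧ x 1 = t j ∧
      x 2 = t l ∧ x 3 = t m := by
  refine ⟨Fin.cons (t i) (Fin.cons (t j) (Fin.cons (t l) (Fin.cons (t m)
    (fun u : Fin s => t (k + u))))), ?_, ?_, rfl, rfl, rfl, rfl⟩
  · apply strictMono_cons
    · apply strictMono_cons
      · apply strictMono_cons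
        · apply strictMono_cons
          · intro u v huv
            exact hs _ _ (by simpa using huv) (by have := v.2; omega)
          · intro u
            exact hs _ _ (by omega) (by have := u.2; omega)
        · intro u
          refine Fin.cases ?_ (fun u => ?_) u
          · exact hs _ _ hlm (by omega)
          · exact hs _ _ (by omega) (by have := u.2; omega)
      · intro u
        refine Fin.cases ?_ (fun u => ?_) u
        · exact hs _ _ hjl (by omega)
        · refine Fin.cases ?_ (fun u => ?_) u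
          · exact hs _ _ (by omega) (by omega)
          · exact hs _ _ (by omega) (by have := u.2; omega)
    · intro u
      refine Fin.cases ?_ (fun u => ?_) u
      · exact hs _ _ hij (by omega)
      · refine Fin.cases ?_ (fun u => ?_) u
        · exact hs _ _ (by omega) (by omega)
        · refine Fin.cases ?_ (fun u => ?_) u
          · exact hs _ _ (by omega) (by omega)
          · exact hs _ _ (by omega) (by have := u.2; omega)
  · intro u
    refine Fin.cases ⟨i, by omega, rfl⟩ (fun u => ?_) u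
    refine Fin.cases ⟨j, by omega, rfl⟩ (fun u => ?_) u
    refine Fin.cases ⟨l, by omega, rfl⟩ (fun u => ?_) u
    refine Fin.cases ⟨m, by omega, rfl⟩ (fun u => ?_) u
    exact ⟨k + u, by have := u.2; omega, rfl⟩

/-- **The stepping-up lemma.** -/
theorem step_main (hρ : IsScale ρ) (hκ : κ₀ ≠ κ₁) (hn : 1 ≤ n) (hS : 2 * n + s + 2 ≤ S.card)
    (hb : ∀ x : Fin (s + 4) → X, StrictMono x → (∀ i, x i ∈ S) → stepF ρ κ₀ κ₁ χ s x = b) :
    ∃ Λ : Finset ℝ, Λ.card = n ∧ (∀ l ∈ Λ, ∃ x ∈ S, ∃ y ∈ S, x < y ∧ l = ρ x y) ∧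
      (∀ l ∈ Λ, ∀ l' ∈ Λ, l < l' → l + 1 ≤ l') ∧
      ∀ A ⊆ Λ, A.card = s + 3 → χ A = b := by
  classical
  obtain ⟨t, ht, htS⟩ := enum S (card_pos.1 (by omega))
  set k := S.card - s with hk
  have hkey : ∃ (T : Finset X) (z : X), (∀ x ∈ T, ∃ i < k, x = t i) ∧ (∃ i < k, z = t i) ∧
      n ≤ T.card ∧ (PL ρ T z ∨ PR ρ T z) := by
    by_cases hb0 : b = κ₀
    · refine noMin hρ k t (fun i j hij hj => ht i j hij (by omega)) n (by omega) hn ?_
      rintro i j l m hij hjl hlm hmk ⟨h1, h2⟩
      obtain ⟨x, hx, hxv, x0, x1, x2, x3⟩ := four_tuple (s := s) ht hij hjl hlm hmk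
        (show k + s ≤ S.card by omega)
      have := hb x hx (fun u => by obtain ⟨v, hv, e⟩ := hxv u; rw [e]; exact htS v hv)
      unfold stepF at this
      rw [x0, x1, x2, x3, if_neg (by intro hh; linarith [hh.1]), if_pos ⟨h1, h2⟩, hb0] at this
      exact hκ this.symm
    · refine noMax hρ k t (fun i j hij hj => ht i j hij (by omega)) n (by omega) hn ?_
      rintro i j l m hij hjl hlm hmk ⟨h1, h2⟩
      obtain ⟨x, hx, hxv, x0, x1, x2, x3⟩ := four_tuple (s := s) ht hij hjl hlm hmk
        (show k + s ≤ S.card by omega)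
      have := hb x hx (fun u => by obtain ⟨v, hv, e⟩ := hxv u; rw [e]; exact htS v hv)
      unfold stepF at this
      rw [x0, x1, x2, x3, if_pos ⟨h1, h2⟩] at this
      exact hb0 this.symm
  obtain ⟨T, z, hT, ⟨iz, hiz, hz⟩, hTn, hP⟩ := hkey
  obtain ⟨T', hT'T, hT'⟩ := exists_subset_card_eq hTn
  have hTS : ∀ x ∈ T', x ∈ S := fun x hx => by
    obtain ⟨i, hi, rfl⟩ := hT x (hT'T hx)
    exact htS i (by omega)
  have hzS : z ∈ S := by rw [hz]; exact htS iz (by omega)
  rcases hP with hP | hP
  · have hP' : PL ρ T' z := ⟨fun a ha => hP.1 a (hT'T ha),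
      fun a ha c hc => hP.2 a (hT'T ha) c (hT'T hc)⟩
    have hlev := PL_levels hρ hP'
    have hinj : Set.InjOn (fun a => ρ a z) (T' : Set X) := by
      intro a ha c hc hac
      have hac' : ρ a z = ρ c z := hac
      rcases lt_trichotomy a c with h | h | h
      · have := hlev a ha c hc h; linarith
      · exact h
      · have := hlev c hc a ha h; linarith
    refine ⟨T'.image fun a => ρ a z, ?_, ?_, ?_, ?_⟩
    · rw [card_image_of_injOn hinj, hT']
    · intro l hl
      obtain ⟨a, ha, rfl⟩ := mem_image.1 hl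
      exact ⟨a, hTS a ha, z, hzS, hP'.1 a ha, rfl⟩
    · intro l hl l' hl' hll
      obtain ⟨a, ha, rfl⟩ := mem_image.1 hl
      obtain ⟨c, hc, rfl⟩ := mem_image.1 hl'
      rcases lt_trichotomy a c with h | h | h
      · have := hlev a ha c hc h
        have hll' : _ < _ := hll
        beta_reduce at hll'
        linarith
      · rw [h] at hll; exact absurd hll (lt_irrefl _)
      · exact hlev c hc a ha h
    · apply homog_image hinj
      intro a ha haT
      rw [← PL_color (κ₀ := κ₀) (κ₁ := κ₁) (χ := χ) hρ hP' a ha haT]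
      apply hb _ (strictMono_snoc ha fun i => hP'.1 _ (haT i))
      intro i
      rcases Fin.eq_castSucc_or_eq_last i with ⟨i, rfl⟩ | rfl
      · rw [Fin.snoc_castSucc]; exact hTS _ (haT i)
      · rw [Fin.snoc_last]; exact hzS
  · have hP' : PR ρ T' z := ⟨fun a ha => hP.1 a (hT'T ha),
      fun a ha c hc => hP.2 a (hT'T ha) c (hT'T hc)⟩
    have hlev := PR_levels hρ hP'
    have hinj : Set.InjOn (fun a => ρ z a) (T' : Set X) := by
      intro a ha c hc hac
      have hac' : ρ z a = ρ z c := hac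
      rcases lt_trichotomy a c with h | h | h
      · have := hlev a ha c hc h; linarith
      · exact h
      · have := hlev c hc a ha h; linarith
    refine ⟨T'.image fun a => ρ z a, ?_, ?_, ?_, ?_⟩
    · rw [card_image_of_injOn hinj, hT']
    · intro l hl
      obtain ⟨a, ha, rfl⟩ := mem_image.1 hl
      exact ⟨z, hzS, a, hTS a ha, hP'.1 a ha, rfl⟩
    · intro l hl l' hl' hll
      obtain ⟨a, ha, rfl⟩ := mem_image.1 hl
      obtain ⟨c, hc, rfl⟩ := mem_image.1 hl'
      rcases lt_trichotomy a c with h | h | h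
      · exact hlev a ha c hc h
      · rw [h] at hll; exact absurd hll (lt_irrefl _)
      · have := hlev c hc a ha h
        have hll' : _ < _ := hll
        beta_reduce at hll'
        linarith
    · apply homog_image hinj
      intro a ha haT
      rw [← PR_color (κ₀ := κ₀) (κ₁ := κ₁) (χ := χ) hρ hP' a ha haT]
      apply hb _ (strictMono_cons ha fun i => hP'.1 _ (haT i))
      intro i
      refine Fin.cases ?_ (fun i => ?_) i
      · exact hzS
      · exact hTS _ (haT i)

/-- The colour of an increasing triple: twice as many colours. -/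
noncomputable def pairF {κ : Type*} (ρ : X → X → ℝ) (χ : Finset ℝ → κ) (x : Fin 3 → X) :
    Bool × κ :=
  if ρ (x 1) (x 2) ≤ ρ (x 0) (x 1) then (true, χ {ρ (x 0) (x 2), ρ (x 1) (x 2)})
  else (false, χ {ρ (x 0) (x 1), ρ (x 0) (x 2)})

/-- **Stepping up from pairs to triples**, with twice as many colours. -/
theorem pair_main (hρ : IsScale ρ) (hn : 1 ≤ n) {b : Bool × κ} (hS : n + 1 ≤ S.card)
    (hb : ∀ x : Fin 3 → X, StrictMono x → (∀ i, x i ∈ S) → pairF ρ χ x = b) :
    ∃ Λ : Finset ℝ, Λ.card = n ∧ (∀ l ∈ Λ, ∃ x ∈ S, ∃ y ∈ S, x < y ∧ l = ρ x y) ∧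
      (∀ l ∈ Λ, ∀ l' ∈ Λ, l < l' → l + 1 ≤ l') ∧
      ∃ b' : κ, ∀ A ⊆ Λ, A.card = 2 → χ A = b' := by
  classical
  have hb3 : ∀ u ∈ S, ∀ v ∈ S, ∀ w ∈ S, u < v → v < w →
      (if ρ v w ≤ ρ u v then (true, χ {ρ u w, ρ v w}) else (false, χ {ρ u v, ρ u w})) = b := by
    intro u hu v hv w hw huv hvw
    have := hb ![u, v, w] (by
      intro i j hij
      fin_cases i <;> fin_cases j <;> simp_all [Fin.lt_def]
      exact huv.trans hvw) (by
      intro i
      fin_cases i <;> simp [hu, hv, hw])
    simpa [pairF] using this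
  have hSne : S.Nonempty := card_pos.1 (by omega)
  obtain ⟨b1, b2⟩ := b
  cases b1 with
  | true =>
    set z := S.max' hSne with hz
    have hzS : z ∈ S := S.max'_mem hSne
    have hP : PL ρ (S.erase z) z := by
      have h1 : ∀ a ∈ S.erase z, a < z := fun a ha =>
        lt_of_le_of_ne (S.le_max' a (mem_of_mem_erase ha)) (ne_of_mem_erase ha)
      refine ⟨h1, ?_⟩
      intro a ha c hc hac
      have := hb3 a (mem_of_mem_erase ha) c (mem_of_mem_erase hc) z hzS hac (h1 c hc)
      by_contra hh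
      rw [if_neg hh] at this
      simp at this
    have hlev := PL_levels hρ hP
    have hinj : Set.InjOn (fun a => ρ a z) ((S.erase z : Finset X) : Set X) := by
      intro a ha c hc hac
      have hac' : ρ a z = ρ c z := hac
      rcases lt_trichotomy a c with h | h | h
      · have := hlev a ha c hc h; linarith
      · exact h
      · have := hlev c hc a ha h; linarith
    have hcard : n ≤ (S.erase z).card := by rw [card_erase_of_mem hzS]; omega
    obtain ⟨T, hTS, hT⟩ := exists_subset_card_eq hcard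
    refine ⟨T.image fun a => ρ a z, ?_, ?_, ?_, b2, ?_⟩
    · rw [card_image_of_injOn (hinj.mono (by exact_mod_cast hTS)), hT]
    · intro l hl
      obtain ⟨a, ha, rfl⟩ := mem_image.1 hl
      exact ⟨a, mem_of_mem_erase (hTS ha), z, hzS, hP.1 a (hTS ha), rfl⟩
    · intro l hl l' hl' hll
      obtain ⟨a, ha, rfl⟩ := mem_image.1 hl
      obtain ⟨c, hc, rfl⟩ := mem_image.1 hl'
      rcases lt_trichotomy a c with h | h | h
      · have := hlev a (hTS ha) c (hTS hc) h
        have hll' : _ < _ := hll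
        beta_reduce at hll'
        linarith
      · rw [h] at hll; exact absurd hll (lt_irrefl _)
      · exact hlev c (hTS hc) a (hTS ha) h
    · apply homog_image (hinj.mono (by exact_mod_cast hTS))
      intro a ha haT
      have h01 : a 0 < a 1 := ha (by simp)
      have := hb3 (a 0) (mem_of_mem_erase (hTS (haT 0))) (a 1) (mem_of_mem_erase (hTS (haT 1)))
        z hzS h01 (hP.1 _ (hTS (haT 1)))
      rw [if_pos (hP.2 _ (hTS (haT 0)) _ (hTS (haT 1)) h01)] at this
      have h2 := (Prod.mk.inj this).2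
      rw [← h2]
      congr 1
      ext y
      simp [Fin.exists_fin_two, eq_comm]
  | false =>
    set z := S.min' hSne with hz
    have hzS : z ∈ S := S.min'_mem hSne
    have hP : PR ρ (S.erase z) z := by
      have h1 : ∀ a ∈ S.erase z, z < a := fun a ha =>
        lt_of_le_of_ne (S.min'_le a (mem_of_mem_erase ha)) (ne_of_mem_erase ha).symm
      refine ⟨h1, ?_⟩
      intro a ha c hc hac
      have := hb3 z hzS a (mem_of_mem_erase ha) c (mem_of_mem_erase hc) (h1 a ha) hac
      by_contra hh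
      rw [if_pos (not_le.1 hh).le] at this
      simp at this
    have hlev := PR_levels hρ hP
    have hinj : Set.InjOn (fun a => ρ z a) ((S.erase z : Finset X) : Set X) := by
      intro a ha c hc hac
      have hac' : ρ z a = ρ z c := hac
      rcases lt_trichotomy a c with h | h | h
      · have := hlev a ha c hc h; linarith
      · exact h
      · have := hlev c hc a ha h; linarith
    have hcard : n ≤ (S.erase z).card := by rw [card_erase_of_mem hzS]; omega
    obtain ⟨T, hTS, hT⟩ := exists_subset_card_eq hcard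
    refine ⟨T.image fun a => ρ z a, ?_, ?_, ?_, b2, ?_⟩
    · rw [card_image_of_injOn (hinj.mono (by exact_mod_cast hTS)), hT]
    · intro l hl
      obtain ⟨a, ha, rfl⟩ := mem_image.1 hl
      exact ⟨z, hzS, a, mem_of_mem_erase (hTS ha), hP.1 a (hTS ha), rfl⟩
    · intro l hl l' hl' hll
      obtain ⟨a, ha, rfl⟩ := mem_image.1 hl
      obtain ⟨c, hc, rfl⟩ := mem_image.1 hl'
      rcases lt_trichotomy a c with h | h | h
      · exact hlev a (hTS ha) c (hTS hc) h
      · rw [h] at hll; exact absurd hll (lt_irrefl _)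
      · have := hlev c (hTS hc) a (hTS ha) h
        have hll' : _ < _ := hll
        beta_reduce at hll'
        linarith
    · apply homog_image (hinj.mono (by exact_mod_cast hTS))
      intro a ha haT
      have h01 : a 0 < a 1 := ha (by simp)
      have := hb3 z hzS (a 0) (mem_of_mem_erase (hTS (haT 0))) (a 1)
        (mem_of_mem_erase (hTS (haT 1))) (hP.1 _ (hTS (haT 0))) h01
      rw [if_neg] at this
      · have h2 := (Prod.mk.inj this).2
        rw [← h2]
        congr 1
        ext y
        simp [Fin.exists_fin_two, eq_comm]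
      · intro hle
        rw [if_pos hle] at this
        simp at this

end Pool.Agent.N584.TI
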