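import Pool.Agent.N584.TI.Count
import Pool.Agent.TH360.SR.Tower

/-!
# Ramsey numbers: basic facts and the recursion of Erdős and Rado
-/

set_option autoImplicit false

namespace Pool.Agent.N584.TI

open Finset

/-- The class is closed under restriction. -/
def Hered {κ : Type*} (P : ℕ → ℕ → (Finset ℕ → κ) → Prop) : Prop :=
  ∀ r N N' c, N ≤ N' → P r N' c → P r N c

/-- The class contains a colouring. -/
def Inh {κ : Type*} (P : ℕ → ℕ → (Finset ℕ → κ) → Prop) : Prop := ∀ r N, ∃ c, P r N c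

section basic

variable {κ : Type*} {P Q : ℕ → ℕ → (Finset ℕ → κ) → Prop} {r n n' N N' : ℕ}

theorem hered_all : Hered (κ := κ) AllCol := fun _ _ _ _ _ _ => trivial

theorem hered_trans : Hered (κ := κ) TransInv := by
  intro r N N' c hN h A t hA h1 h2
  exact h A t hA (h1.trans (range_subset_range.2 hN)) (h2.trans (range_subset_range.2 hN))

theorem hered_scale : Hered (κ := κ) ScaleCol := by
  intro r N N' c hN h x y hx hy h1 h2
  exact h x y hx hy (fun i => (h1 i).trans_le hN) (fun i => (h2 i).trans_le hN)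

theorem hered_aff : Hered (κ := κ) AffInv := by
  intro r N N' c hN h x y hx hy h1 h2
  exact h x y hx hy (fun i => (h1 i).trans_le hN) (fun i => (h2 i).trans_le hN)

theorem inh_all [Nonempty κ] : Inh (κ := κ) AllCol :=
  fun _ _ => ⟨fun _ => Classical.arbitrary κ, trivial⟩

theorem inh_trans [Nonempty κ] : Inh (κ := κ) TransInv :=
  fun _ _ => ⟨fun _ => Classical.arbitrary κ, fun _ _ _ _ _ => rfl⟩

theorem inh_scale [Nonempty κ] : Inh (κ := κ) ScaleCol :=
  fun _ _ => ⟨fun _ => Classical.arbitrary κ, fun _ _ _ _ _ _ _ => rfl⟩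

theorem inh_aff [Nonempty κ] : Inh (κ := κ) AffInv :=
  fun _ _ => ⟨fun _ => Classical.arbitrary κ, fun _ _ _ _ _ _ _ => rfl⟩

theorem Arrow.mono_N (hP : Hered P) (h : Arrow P r n N) (hN : N ≤ N') : Arrow P r n N' := by
  intro c hc
  obtain ⟨S, hS, h1, h2⟩ := h c (hP r N N' c hN hc)
  exact ⟨S, hS.trans (range_subset_range.2 hN), h1, h2⟩

theorem Arrow.mono_n (h : Arrow P r n N) (hn : n' ≤ n) : Arrow P r n' N := by
  intro c hc
  obtain ⟨S, hS, h1, b, h2⟩ := h c hc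
  obtain ⟨T, hTS, hT⟩ := exists_subset_card_eq (hn.trans h1.ge)
  exact ⟨T, hTS.trans hS, hT, b, fun A hA => h2 A (hA.trans hTS)⟩

theorem Arrow.sub (hPQ : ∀ r N c, P r N c → Q r N c) (h : Arrow Q r n N) : Arrow P r n N :=
  fun c hc => h c (hPQ _ _ _ hc)

end basic

section finite

variable {κ : Type} [Fintype κ] {P Q : ℕ → ℕ → (Finset ℕ → κ) → Prop} {r n n' N N' : ℕ}

/-- From the library's notion of homogeneous sets. -/
theorem arrow_of_arr [Nonempty κ] {s : ℕ} (h : Pool.Agent.TH360.SR.Arr (s + 1) n N κ) :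
    Arrow (κ := κ) AllCol (s + 1) n N := by
  intro c _
  obtain ⟨H, hH, hn, hom⟩ := h c
  obtain ⟨S, hS, hSn⟩ := exists_subset_card_eq hn
  refine ⟨S, hS.trans hH, hSn, ?_⟩
  by_cases h0 : ∃ A ⊆ S, A.card = s + 1
  · obtain ⟨A₀, hA₀, hA₀c⟩ := h0
    exact ⟨c A₀, fun A hA hAc => hom A (hA.trans hS) A₀ (hA₀.trans hS) hAc hA₀c⟩
  · push Not at h0
    exact ⟨Classical.arbitrary κ, fun A hA hAc => absurd hAc (h0 A hA)⟩

theorem exists_arrow [Nonempty κ] (hr : 1 ≤ r) : ∃ N, Arrow (κ := κ) AllCol r n N := by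
  obtain ⟨s, rfl⟩ : ∃ s, r = s + 1 := ⟨r - 1, by omega⟩
  exact ⟨_, arrow_of_arr (Pool.Agent.TH360.SR.arr_RB κ n s)⟩

theorem Ram_spec [Nonempty κ] (hr : 1 ≤ r) : Arrow P r n (Ram P r n) := by
  obtain ⟨N, hN⟩ := exists_arrow (κ := κ) (n := n) hr
  exact Nat.sInf_mem (s := {N | Arrow P r n N}) ⟨N, hN.sub (fun _ _ _ _ => trivial)⟩

theorem Ram_le (h : Arrow P r n N) : Ram P r n ≤ N := Nat.sInf_le h

theorem lt_Ram [Nonempty κ] (hr : 1 ≤ r) (hP : Hered P) (h : ¬ Arrow P r n N) :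
    N < Ram P r n := by
  by_contra hh
  exact h ((Ram_spec (P := P) (n := n) hr).mono_N hP (not_lt.1 hh))

theorem not_arrow_of_lt (h : N < Ram P r n) : ¬ Arrow P r n N := fun hA =>
  absurd (Ram_le hA) (not_le.2 h)

theorem Ram_mono [Nonempty κ] (hr : 1 ≤ r) (hn : n ≤ n') : Ram P r n ≤ Ram P r n' :=
  Ram_le ((Ram_spec (P := P) (n := n') hr).mono_n hn)

theorem Ram_sub [Nonempty κ] (hr : 1 ≤ r) (hPQ : ∀ r N c, P r N c → Q r N c) :
    Ram P r n ≤ Ram Q r n :=
  Ram_le ((Ram_spec (P := Q) (n := n) hr).sub hPQ)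

theorem le_Ram [Nonempty κ] (hr : 1 ≤ r) (hP : Inh P) : n ≤ Ram P r n := by
  obtain ⟨c, hc⟩ := hP r (Ram P r n)
  obtain ⟨S, hS, hSn, -⟩ := Ram_spec (P := P) (n := n) hr c hc
  have := card_le_card hS
  rwa [card_range, hSn] at this

/-- The recursion of Erdős and Rado. -/
theorem er_step {s k : ℕ} (h : Arrow (κ := κ) AllCol (s + 1) n k) :
    Arrow (κ := κ) AllCol (s + 2) n ((2 * Fintype.card κ ^ ((s + 1) * k ^ s)) ^ k) := by
  classical
  intro c _
  obtain ⟨v, W, -, hWc, hvV, hvm, hvW, -, h2⟩ := Pool.Agent.TH138.NF.end_hom (Λ := κ) (s := s)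
    (fun x => c (univ.image x)) (range ((2 * Fintype.card κ ^ ((s + 1) * k ^ s)) ^ k)) k
    (2 * Fintype.card κ ^ ((s + 1) * k ^ s)) rfl (by rw [card_range]) k le_rfl
  have hW : W.Nonempty := by
    rw [← card_pos]
    refine lt_of_lt_of_le ?_ hWc
    simp
  obtain ⟨w₀, hw₀⟩ := hW
  obtain ⟨H, hH, hHc, b, hHom⟩ := h (fun S => c (insert w₀ (S.image v))) trivial
  have hvinj : Set.InjOn v (H : Set ℕ) := by
    intro i hi j hj hij
    have hi' : i < k := mem_range.1 (hH hi)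
    have hj' : j < k := mem_range.1 (hH hj)
    rcases lt_trichotomy i j with h | h | h
    · exact absurd hij (hvm i j h hj').ne
    · exact h
    · exact absurd hij (hvm j i h hi').ne'
  refine ⟨H.image v, ?_, ?_, b, ?_⟩
  · intro x hx
    obtain ⟨i, hi, rfl⟩ := mem_image.1 hx
    exact hvV i (mem_range.1 (hH hi))
  · rw [card_image_of_injOn hvinj]
    exact hHc
  · intro A hA hAc
    obtain ⟨A', hA', rfl⟩ := subset_image_iff.1 hA
    have hA'c : A'.card = s + 2 := by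
      rw [card_image_of_injOn (hvinj.mono (by exact_mod_cast hA'))] at hAc
      exact hAc
    set e := A'.orderEmbOfFin hA'c with he
    have hem : StrictMono (e : Fin (s + 2) → ℕ) := e.strictMono
    have heA : ∀ i, e i ∈ A' := fun i => orderEmbOfFin_mem _ _ _
    have himg : univ.image (e : Fin (s + 2) → ℕ) = A' := univ_image_orderEmb A' hA'c
    have h3 := h2 (fun i : Fin (s + 1) => e i.castSucc) (e (Fin.last _))
      (mem_range.1 (hH (hA' (heA _)))) (fun a => hem (Fin.castSucc_lt_last a)) w₀ hw₀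
    have e1 : (Fin.snoc (fun a : Fin (s + 1) => v (e a.castSucc)) (v (e (Fin.last (s + 1)))) :
        Fin (s + 2) → ℕ) = fun i => v (e i) := by
      funext i
      rcases Fin.eq_castSucc_or_eq_last i with ⟨j, rfl⟩ | rfl
      · simp
      · simp
    have e2 : univ.image (Fin.snoc (fun a : Fin (s + 1) => v (e a.castSucc)) w₀ :
        Fin (s + 2) → ℕ) =
        insert w₀ ((univ.image (fun i : Fin (s + 1) => e i.castSucc)).image v) := by
      ext x
      simp only [mem_image, mem_univ, true_and, mem_insert]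
      constructor
      · rintro ⟨i, rfl⟩
        rcases Fin.eq_castSucc_or_eq_last i with ⟨j, rfl⟩ | rfl
        · right
          exact ⟨_, ⟨j, rfl⟩, by simp⟩
        · left
          simp
      · rintro (rfl | ⟨a, ⟨j, rfl⟩, rfl⟩)
        · exact ⟨Fin.last _, by simp⟩
        · exact ⟨j.castSucc, by simp⟩
    have h4 : c (A'.image v) = c (insert w₀
        ((univ.image (fun i : Fin (s + 1) => e i.castSucc)).image v)) := by
      rw [← e2, ← h3, e1]
      congr 1
      rw [← himg, image_image]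
      rfl
    rw [h4]
    apply hHom
    · intro x hx
      obtain ⟨i, -, rfl⟩ := mem_image.1 hx
      exact hA' (heA _)
    · exact card_tuple (fun i j hij => hem (by simpa using hij))

end finite

/-! ### The inequalities -/

section ineq

variable {r n : ℕ}

/-- Scale colourings with `r + 1` and all colourings with `r`. -/
theorem scale_ineq_lower {κ : Type} [Fintype κ] {κ₀ κ₁ : κ} (hκ : κ₀ ≠ κ₁) (hr : 3 ≤ r)
    (hn : 1 ≤ n) :
    2 ^ (Ram (κ := κ) AllCol r n - 1) < Ram (κ := κ) ScaleCol (r + 1) (2 * n + r - 1) := by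
  haveI : Nonempty κ := ⟨κ₀⟩
  obtain ⟨s, rfl⟩ : ∃ s, r = s + 3 := ⟨r - 3, by omega⟩
  have h1 : n ≤ Ram (κ := κ) AllCol (s + 3) n := le_Ram (by omega) inh_all
  have h2 := scale_lower hκ hn (m := Ram (κ := κ) AllCol (s + 3) n - 1) (s := s) (n := n)
    (not_arrow_of_lt (by omega))
  exact lt_Ram (by omega) hered_scale h2

theorem scale_ineq_upper {κ : Type} [Fintype κ] [Nonempty κ] (hr : 1 ≤ r) :
    Ram (κ := κ) ScaleCol (r + 1) (n + 1) ≤ 2 ^ Ram (κ := κ) AllCol r n :=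
  Ram_le (scale_upper (Ram_spec hr))

theorem aff_ineq_lower {κ : Type} [Fintype κ] {κ₀ κ₁ : κ} (hκ : κ₀ ≠ κ₁) (hr : 3 ≤ r)
    (hn : 1 ≤ n) :
    2 ^ 2 ^ (Ram (κ := κ) AllCol r n - 1) <
      Ram (κ := κ) AffInv (r + 2) (4 * n + 3 * r - 2) := by
  haveI : Nonempty κ := ⟨κ₀⟩
  obtain ⟨s, rfl⟩ : ∃ s, r = s + 3 := ⟨r - 3, by omega⟩
  have h1 : n ≤ Ram (κ := κ) AllCol (s + 3) n := le_Ram (by omega) inh_all
  have h2 := aff_lower hκ hn (m := Ram (κ := κ) AllCol (s + 3) n - 1) (s := s) (n := n)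
    (not_arrow_of_lt (by omega))
  have h3 := lt_Ram (by omega) hered_aff h2
  rwa [show 4 * n + 3 * s + 7 = 4 * n + 3 * (s + 3) - 2 by omega] at h3

theorem pair_scale_ineq {κ : Type} [Fintype κ] [Nonempty κ] (hn : 1 ≤ n) :
    2 ^ (Ram (κ := κ) AllCol 2 n - 1) < Ram (κ := Bool × κ) ScaleCol 3 (n + 1) := by
  have h1 : n ≤ Ram (κ := κ) AllCol 2 n := le_Ram (by omega) inh_all
  exact lt_Ram (by omega) hered_scale
    (pair_scale hn (m := Ram (κ := κ) AllCol 2 n - 1) (not_arrow_of_lt (by omega)))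

theorem pair_aff_ineq {κ : Type} [Fintype κ] [Nonempty κ] (hn : 1 ≤ n) :
    2 ^ 2 ^ (Ram (κ := κ) AllCol 2 n - 1) < Ram (κ := Bool × κ) AffInv 4 (2 * n + 4) := by
  have h1 : n ≤ Ram (κ := κ) AllCol 2 n := le_Ram (by omega) inh_all
  exact lt_Ram (by omega) hered_aff
    (pair_aff hn (m := Ram (κ := κ) AllCol 2 n - 1) (not_arrow_of_lt (by omega)))

theorem er_ineq (hr : 1 ≤ r) :
    Ram (κ := Bool) AllCol (r + 1) n ≤
      (2 * 2 ^ (r * Ram (κ := Bool) AllCol r n ^ (r - 1))) ^ Ram (κ := Bool) AllCol r n := by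
  obtain ⟨s, rfl⟩ : ∃ s, r = s + 1 := ⟨r - 1, by omega⟩
  have := er_step (κ := Bool) (Ram_spec (P := AllCol) (r := s + 1) (n := n) (by omega))
  rw [Fintype.card_bool] at this
  exact Ram_le this

theorem er_upper (hr : 2 ≤ r) (hn : 1 ≤ n) :
    Ram (κ := Bool) AllCol r n ≤
      Pool.Agent.TH360.SR.twr (r - 1) ((2 * r - 2).factorial * (8 * n)) := by
  obtain ⟨s, rfl⟩ : ∃ s, r = s + 2 := ⟨r - 2, by omega⟩
  have h1 := Pool.Agent.TH360.SR.RB_le 2 n (by norm_num) hn s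
  have h2 : Ram (κ := Bool) AllCol (s + 1 + 1) n ≤ Pool.Agent.TH360.SR.RB 2 n (s + 1) := by
    have := arrow_of_arr (κ := Bool) (Pool.Agent.TH360.SR.arr_RB Bool n (s + 1))
    rw [Fintype.card_bool] at this
    exact Ram_le this
  refine h2.trans (h1.trans (le_of_eq ?_))
  rw [show s + 2 - 1 = s + 1 by omega, show 2 * (s + 2) - 2 = 2 * s + 2 by omega]
  congr 2
  ring

end ineq

end Pool.Agent.N584.TI
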