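import Pool.Agent.N584.TI.Main

/-!
# Translation invariant and affinely invariant colourings
-/

set_option autoImplicit false

namespace Pool.Agent.N584.TI

open Finset

/-! ### Three scale functions -/

/-- `⌊log₂ (b - a)⌋` for natural numbers. -/
noncomputable def ρN (a b : ℕ) : ℝ := (Nat.log 2 (b - a) : ℝ)

/-- `⌊log₂ (b - a)⌋` for real numbers. -/
noncomputable def ρR (a b : ℝ) : ℝ := (⌊Real.logb 2 (b - a)⌋ : ℝ)

/-- `log₂ (b - a)` for natural numbers. -/
noncomputable def ρL (a b : ℕ) : ℝ := Real.logb 2 ((b : ℝ) - a)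

theorem isScale_ρN : IsScale ρN := by
  constructor
  · intro a b c d h1 h2 h3
    unfold ρN
    exact_mod_cast Nat.log_mono_right (by omega)
  · intro a b c h1 h2
    unfold ρN
    have h3 : min (Nat.log 2 (b - a)) (Nat.log 2 (c - b)) + 1 ≤ Nat.log 2 (c - a) := by
      set q := min (Nat.log 2 (b - a)) (Nat.log 2 (c - b)) with hq
      have e1 : 2 ^ q ≤ b - a := Nat.pow_le_of_le_log (by omega) (min_le_left _ _)
      have e2 : 2 ^ q ≤ c - b := Nat.pow_le_of_le_log (by omega) (min_le_right _ _)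
      apply Nat.le_log_of_pow_le (by norm_num)
      rw [pow_succ]
      omega
    exact_mod_cast h3

theorem isScale_ρR : IsScale ρR := by
  constructor
  · intro a b c d h1 h2 h3
    unfold ρR
    exact_mod_cast Int.floor_mono (Real.logb_le_logb_of_le (by norm_num) (by linarith)
      (by linarith))
  · intro a b c h1 h2
    unfold ρR
    have h3 : min ⌊Real.logb 2 (b - a)⌋ ⌊Real.logb 2 (c - b)⌋ + 1 ≤ ⌊Real.logb 2 (c - a)⌋ := by
      set q := min ⌊Real.logb 2 (b - a)⌋ ⌊Real.logb 2 (c - b)⌋ with hq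
      have e1 : (2 : ℝ) ^ (q : ℝ) ≤ b - a := by
        rw [← Real.le_logb_iff_rpow_le (by norm_num) (by linarith)]
        exact le_trans (by exact_mod_cast min_le_left _ _) (Int.floor_le _)
      have e2 : (2 : ℝ) ^ (q : ℝ) ≤ c - b := by
        rw [← Real.le_logb_iff_rpow_le (by norm_num) (by linarith)]
        exact le_trans (by exact_mod_cast min_le_right _ _) (Int.floor_le _)
      rw [Int.le_floor]
      push_cast
      rw [Real.le_logb_iff_rpow_le (by norm_num) (by linarith), Real.rpow_add (by norm_num),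
        Real.rpow_one]
      linarith
    exact_mod_cast h3

theorem isScale_ρL : IsScale ρL := by
  constructor
  · intro a b c d h1 h2 h3
    unfold ρL
    have h1' : (a : ℝ) ≤ b := by exact_mod_cast h1
    have h2' : (b : ℝ) < c := by exact_mod_cast h2
    have h3' : (c : ℝ) ≤ d := by exact_mod_cast h3
    exact Real.logb_le_logb_of_le (by norm_num) (by linarith) (by linarith)
  · intro a b c h1 h2
    unfold ρL
    have h1' : (a : ℝ) < b := by exact_mod_cast h1
    have h2' : (b : ℝ) < c := by exact_mod_cast h2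
    set q := min (Real.logb 2 ((b : ℝ) - a)) (Real.logb 2 ((c : ℝ) - b)) with hq
    have e1 : (2 : ℝ) ^ q ≤ b - a := by
      rw [← Real.le_logb_iff_rpow_le (by norm_num) (by linarith)]
      exact min_le_left _ _
    have e2 : (2 : ℝ) ^ q ≤ c - b := by
      rw [← Real.le_logb_iff_rpow_le (by norm_num) (by linarith)]
      exact min_le_right _ _
    rw [Real.le_logb_iff_rpow_le (by norm_num) (by linarith), Real.rpow_add (by norm_num),
      Real.rpow_one]
    linarith

/-! ### Colourings of sets from colourings of tuples -/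

variable {κ : Type*}

/-- The colouring of the `k`-subsets given by a colouring of the increasing `k`-tuples. -/
noncomputable def ofTup {X : Type*} [LinearOrder X] (k : ℕ) (κ₀ : κ) (F : (Fin k → X) → κ)
    (A : Finset X) : κ :=
  if h : A.card = k then F (A.orderEmbOfFin h) else κ₀

theorem ofTup_image {X : Type*} [LinearOrder X] {k : ℕ} {κ₀ : κ} {F : (Fin k → X) → κ}
    {x : Fin k → X} (hx : StrictMono x) : ofTup k κ₀ F (univ.image x) = F x := by
  have hc : (univ.image x).card = k := by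
    rw [card_image_of_injective _ hx.injective, card_univ, Fintype.card_fin]
  unfold ofTup
  rw [dif_pos hc]
  congr 1
  exact (orderEmbOfFin_unique hc (fun i => mem_image_of_mem _ (mem_univ i)) hx).symm

/-- Colourings of the levels. -/
noncomputable def lev (c : Finset ℕ → κ) (T : Finset ℝ) : κ := c (T.image Nat.floor)

/-- The conclusion of the stepping-up lemma for natural levels. -/
theorem lev_contra {c : Finset ℕ → κ} {r n m : ℕ}
    (hc : ∀ S ⊆ range m, S.card = n → ∀ b, ∃ A ⊆ S, A.card = r ∧ c A ≠ b)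
    {Λ : Finset ℝ} (hΛn : Λ.card = n) (hΛ : ∀ l ∈ Λ, ∃ j : ℕ, j < m ∧ l = j) {b : κ}
    (hb : ∀ A ⊆ Λ, A.card = r → lev c A = b) : False := by
  classical
  have hinj : Set.InjOn (Nat.floor : ℝ → ℕ) (Λ : Set ℝ) := by
    intro x hx y hy hxy
    obtain ⟨i, -, rfl⟩ := hΛ x hx
    obtain ⟨j, -, rfl⟩ := hΛ y hy
    simp only [Nat.floor_natCast] at hxy
    rw [hxy]
  obtain ⟨A, hA, hAr, hAb⟩ := hc (Λ.image Nat.floor) (by
    intro x hx
    obtain ⟨l, hl, rfl⟩ := mem_image.1 hx
    obtain ⟨j, hj, rfl⟩ := hΛ l hl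
    simpa using hj) (by rw [card_image_of_injOn hinj, hΛn]) b
  obtain ⟨A', hA', rfl⟩ := subset_image_iff.1 hA
  apply hAb
  refine hb A' hA' ?_
  rw [card_image_of_injOn (hinj.mono (by exact_mod_cast hA'))] at hAr
  exact hAr

/-- Two tuples with equal scales have the same colour. -/
theorem stepF_congr {X Y : Type*} [LinearOrder X] [LinearOrder Y] {ρ : X → X → ℝ}
    {σ : Y → Y → ℝ} {κ₀ κ₁ : κ} {χ : Finset ℝ → κ} {s : ℕ} {x : Fin (s + 4) → X}
    {y : Fin (s + 4) → Y} (t : ℝ) (hχ : ∀ T : Finset ℝ, χ (T.image (· + t)) = χ T)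
    (h : ∀ i j, i < j → σ (y i) (y j) = ρ (x i) (x j) + t) :
    stepF σ κ₀ κ₁ χ s y = stepF ρ κ₀ κ₁ χ s x := by
  have h01 : (0 : Fin (s + 4)) < 1 := by
    rw [Fin.lt_def]
    show 0 % (s + 4) < 1 % (s + 4)
    rw [Nat.mod_eq_of_lt, Nat.mod_eq_of_lt] <;> omega
  have h12 : (1 : Fin (s + 4)) < 2 := by
    rw [Fin.lt_def]
    show 1 % (s + 4) < 2 % (s + 4)
    rw [Nat.mod_eq_of_lt, Nat.mod_eq_of_lt] <;> omega
  have h23 : (2 : Fin (s + 4)) < 3 := by
    rw [Fin.lt_def]
    show 2 % (s + 4) < 3 % (s + 4)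
    rw [Nat.mod_eq_of_lt, Nat.mod_eq_of_lt] <;> omega
  have e1 : (univ.image fun i : Fin (s + 3) => σ (y i.castSucc) (y (Fin.last _))) =
      (univ.image fun i : Fin (s + 3) => ρ (x i.castSucc) (x (Fin.last _))).image (· + t) := by
    rw [image_image]
    apply image_congr
    intro i _
    exact h _ _ (Fin.castSucc_lt_last i)
  have e2 : (univ.image fun i : Fin (s + 3) => σ (y 0) (y i.succ)) =
      (univ.image fun i : Fin (s + 3) => ρ (x 0) (x i.succ)).image (· + t) := by
    rw [image_image]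
    apply image_congr
    intro i _
    exact h _ _ (Fin.succ_pos i)
  unfold stepF
  rw [h _ _ h01, h _ _ h12, h _ _ h23, e1, e2, hχ, hχ]
  simp only [add_lt_add_iff_right]

theorem pairF_congr {X Y : Type*} [LinearOrder X] [LinearOrder Y] {ρ : X → X → ℝ}
    {σ : Y → Y → ℝ} {χ : Finset ℝ → κ} {x : Fin 3 → X} {y : Fin 3 → Y}
    (h : ∀ i j, i < j → σ (y i) (y j) = ρ (x i) (x j)) :
    pairF σ χ y = pairF ρ χ x := by
  unfold pairF
  rw [h 0 1 (by decide), h 1 2 (by decide), h 0 2 (by decide)]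

theorem ofTup_trans {k : ℕ} {κ₀ : κ} {F : (Fin k → ℝ) → κ}
    (hF : ∀ (x : Fin k → ℝ) (t : ℝ), StrictMono x → F (fun i => x i + t) = F x) (t : ℝ)
    (T : Finset ℝ) : ofTup k κ₀ F (T.image (· + t)) = ofTup k κ₀ F T := by
  by_cases hT : T.card = k
  · have e : T = univ.image (T.orderEmbOfFin hT) := (univ_image_orderEmb T hT).symm
    have hx : StrictMono (T.orderEmbOfFin hT : Fin k → ℝ) := (T.orderEmbOfFin hT).strictMono
    have hx' : StrictMono (fun i => T.orderEmbOfFin hT i + t) := fun i j hij => by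
      have := hx hij
      simp only
      linarith
    have e2 : T.image (· + t) = univ.image (fun i => T.orderEmbOfFin hT i + t) := by
      conv_lhs => rw [e]
      rw [image_image]
      rfl
    rw [e2, ofTup_image hx', hF _ _ hx]
    conv_rhs => rw [e]
    rw [ofTup_image hx]
  · have hT' : (T.image (· + t)).card ≠ k := by
      rwa [card_image_of_injective _ (add_left_injective t)]
    unfold ofTup
    rw [dif_neg hT, dif_neg hT']

/-- `stepF` for the scale `ρR` is translation invariant. -/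
theorem stepF_trans {κ₀ κ₁ : κ} {χ : Finset ℝ → κ} {s : ℕ} (t : ℝ) (T : Finset ℝ) :
    ofTup (s + 4) κ₀ (stepF ρR κ₀ κ₁ χ s) (T.image (· + t)) =
      ofTup (s + 4) κ₀ (stepF ρR κ₀ κ₁ χ s) T := by
  apply ofTup_trans
  intro x t _
  apply stepF_congr 0
  · intro T
    simp
  · intro i j _
    unfold ρR
    rw [show x j + t - (x i + t) = x j - x i by ring, add_zero]

theorem pairF_trans {κ₀ : Bool × κ} {χ : Finset ℝ → κ} (t : ℝ) (T : Finset ℝ) :
    ofTup 3 κ₀ (pairF ρR χ) (T.image (· + t)) = ofTup 3 κ₀ (pairF ρR χ) T := by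
  apply ofTup_trans
  intro x t _
  apply pairF_congr
  intro i j _
  unfold ρR
  rw [show x j + t - (x i + t) = x j - x i by ring]

end Pool.Agent.N584.TI
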