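import Mathlib

/-!
# Stepping up with a scale function

`X` is a linearly ordered set and `ρ a b` (`a < b`) is the scale of the gap between `a` and `b`,
for instance `⌊log₂ (b - a)⌋` or `log₂ (b - a)`.
-/

set_option autoImplicit false

namespace Pool.Agent.N584.TI

open Finset

variable {X : Type*} [LinearOrder X]

/-- Scale functions. -/
structure IsScale (ρ : X → X → ℝ) : Prop where
  mono : ∀ {a b c d : X}, a ≤ b → b < c → c ≤ d → ρ b c ≤ ρ a d
  doub : ∀ {a b c : X}, a < b → b < c → min (ρ a b) (ρ b c) + 1 ≤ ρ a c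

/-- The colour of an increasing tuple in the stepping-up construction. -/
noncomputable def stepF {κ : Type*} (ρ : X → X → ℝ) (κ₀ κ₁ : κ) (χ : Finset ℝ → κ) (s : ℕ)
    (x : Fin (s + 4) → X) : κ :=
  if ρ (x 0) (x 1) < ρ (x 1) (x 2) ∧ ρ (x 2) (x 3) < ρ (x 1) (x 2) then κ₀
  else if ρ (x 1) (x 2) < ρ (x 0) (x 1) ∧ ρ (x 1) (x 2) < ρ (x 2) (x 3) then κ₁
  else if ρ (x 2) (x 3) < ρ (x 0) (x 1) then
    χ (univ.image fun i : Fin (s + 3) => ρ (x i.castSucc) (x (Fin.last _)))
  else χ (univ.image fun i : Fin (s + 3) => ρ (x 0) (x i.succ))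

/-- Lemma A: no local maxima. -/
theorem lemA {ρ : X → X → ℝ} (hρ : IsScale ρ) (k : ℕ) (s : ℕ → X)
    (hs : ∀ i j, i < j → j < k → s i < s j)
    (hmax : ∀ i j l m, i < j → j < l → l < m → m < k →
      ¬ (ρ (s i) (s j) < ρ (s j) (s l) ∧ ρ (s l) (s m) < ρ (s j) (s l))) :
    ∀ d i, i + d + 2 < k → ∃ (z : ℕ) (L R : Finset ℕ), i < z ∧ z < i + d + 2 ∧
      L.card + R.card = d ∧ (∀ a ∈ L, i ≤ a ∧ a < z) ∧ (∀ b ∈ R, z < b ∧ b ≤ i + d + 2) ∧
      (∀ a ∈ L, ∀ c, a < c → c < z → ρ (s c) (s z) ≤ ρ (s a) (s c)) ∧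
      (∀ b ∈ R, ∀ c, z < c → c < b → ρ (s z) (s c) ≤ ρ (s c) (s b)) := by
  intro d
  induction d with
  | zero =>
    intro i hi
    exact ⟨i + 1, ∅, ∅, by omega, by omega, by simp, by simp, by simp, by simp, by simp⟩
  | succ d ih =>
    intro i hi
    have h := hmax i (i + 1) (i + d + 2) (i + d + 3) (by omega) (by omega) (by omega) (by omega)
    rw [not_and_or, not_lt, not_lt] at h
    rcases h with h | h
    · obtain ⟨z, L, R, h1, h2, h3, h4, h5, h6, h7⟩ := ih (i + 1) (by omega)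
      have hiL : i ∉ L := fun hi' => by have := h4 i hi'; omega
      refine ⟨z, insert i L, R, by omega, by omega, ?_, ?_, ?_, ?_, h7⟩
      · rw [card_insert_of_notMem hiL]; omega
      · intro a ha
        rcases mem_insert.1 ha with rfl | ha
        · omega
        · have := h4 a ha; omega
      · intro b hb
        have := h5 b hb
        omega
      · intro a ha c hac hcz
        rcases mem_insert.1 ha with rfl | ha
        · have e1 : s (a + 1) ≤ s c := by
            rcases Nat.eq_or_lt_of_le (show a + 1 ≤ c by omega) with e | e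
            · rw [e]
            · exact (hs _ _ e (by omega)).le
          have e2 : s z ≤ s (a + d + 2) := by
            rcases Nat.eq_or_lt_of_le (show z ≤ a + d + 2 by omega) with e | e
            · rw [e]
            · exact (hs _ _ e (by omega)).le
          have e3 := hρ.mono e1 (hs c z hcz (by omega)) e2
          have e4 := hρ.mono (le_refl (s a)) (hs a (a + 1) (by omega) (by omega)) e1
          linarith
        · exact h6 a ha c hac hcz
    · obtain ⟨z, L, R, h1, h2, h3, h4, h5, h6, h7⟩ := ih i (by omega)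
      have hiR : i + d + 3 ∉ R := fun hi' => by have := h5 _ hi'; omega
      refine ⟨z, L, insert (i + d + 3) R, by omega, by omega, ?_, ?_, ?_, h6, ?_⟩
      · rw [card_insert_of_notMem hiR]; omega
      · intro a ha
        have := h4 a ha; omega
      · intro b hb
        rcases mem_insert.1 hb with rfl | hb
        · omega
        · have := h5 b hb
          omega
      · intro b hb c hzc hcb
        rcases mem_insert.1 hb with rfl | hb
        · have e1 : s c ≤ s (i + d + 2) := by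
            rcases Nat.eq_or_lt_of_le (show c ≤ i + d + 2 by omega) with e | e
            · rw [e]
            · exact (hs _ _ e (by omega)).le
          have e2 : s (i + 1) ≤ s z := by
            rcases Nat.eq_or_lt_of_le (show i + 1 ≤ z by omega) with e | e
            · rw [e]
            · exact (hs _ _ e (by omega)).le
          have e3 := hρ.mono e2 (hs z c hzc (by omega)) e1
          have e4 := hρ.mono e1 (hs (i + d + 2) (i + d + 3) (by omega) (by omega))
            (le_refl (s (i + d + 3)))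
          linarith
        · exact h7 b hb c hzc hcb

/-- The two kinds of good pairs `(T, z)`. -/
def PL (ρ : X → X → ℝ) (T : Finset X) (z : X) : Prop :=
  (∀ a ∈ T, a < z) ∧ ∀ a ∈ T, ∀ b ∈ T, a < b → ρ b z ≤ ρ a b

def PR (ρ : X → X → ℝ) (T : Finset X) (z : X) : Prop :=
  (∀ a ∈ T, z < a) ∧ ∀ a ∈ T, ∀ b ∈ T, a < b → ρ z a ≤ ρ a b

theorem injOn_of {k : ℕ} {s : ℕ → X} (hs : ∀ i j, i < j → j < k → s i < s j) {I : Finset ℕ}
    (hI : ∀ i ∈ I, i < k) : Set.InjOn s (I : Set ℕ) := by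
  intro a ha b hb hab
  rcases lt_trichotomy a b with h | h | h
  · exact absurd hab (hs a b h (hI b hb)).ne
  · exact h
  · exact absurd hab (hs b a h (hI a ha)).ne'

theorem lt_of_lt_index {k : ℕ} {s : ℕ → X} (hs : ∀ i j, i < j → j < k → s i < s j) {i j : ℕ}
    (hi : i < k) (h : s i < s j) : i < j := by
  by_contra hij
  rcases Nat.eq_or_lt_of_le (not_lt.1 hij) with e | e
  · rw [e] at h; exact lt_irrefl _ h
  · exact absurd h (hs j i e hi).not_gt

/-- From an index set to a pair of type `PL`. -/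
theorem PL_image {ρ : X → X → ℝ} {k : ℕ} {s : ℕ → X} (hs : ∀ i j, i < j → j < k → s i < s j)
    {z : ℕ} (hz : z < k) {L : Finset ℕ} (h1 : ∀ a ∈ L, a < z)
    (h2 : ∀ a ∈ L, ∀ c ∈ L, a < c → ρ (s c) (s z) ≤ ρ (s a) (s c)) :
    PL ρ (L.image s) (s z) ∧ (L.image s).card = L.card := by
  refine ⟨⟨?_, ?_⟩, card_image_of_injOn (injOn_of hs fun i hi => (h1 i hi).trans hz)⟩
  · intro a ha
    obtain ⟨i, hi, rfl⟩ := mem_image.1 ha
    exact hs i z (h1 i hi) hz
  · intro a ha b hb hab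
    obtain ⟨i, hi, rfl⟩ := mem_image.1 ha
    obtain ⟨j, hj, rfl⟩ := mem_image.1 hb
    exact h2 i hi j hj (lt_of_lt_index hs ((h1 i hi).trans hz) hab)

theorem PR_image {ρ : X → X → ℝ} {k : ℕ} {s : ℕ → X} (hs : ∀ i j, i < j → j < k → s i < s j)
    {z : ℕ} {R : Finset ℕ} (h1 : ∀ a ∈ R, z < a ∧ a < k)
    (h2 : ∀ a ∈ R, ∀ c ∈ R, a < c → ρ (s z) (s a) ≤ ρ (s a) (s c)) :
    PR ρ (R.image s) (s z) ∧ (R.image s).card = R.card := by
  refine ⟨⟨?_, ?_⟩, card_image_of_injOn (injOn_of hs fun i hi => (h1 i hi).2)⟩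
  · intro a ha
    obtain ⟨i, hi, rfl⟩ := mem_image.1 ha
    exact hs z i (h1 i hi).1 (h1 i hi).2
  · intro a ha b hb hab
    obtain ⟨i, hi, rfl⟩ := mem_image.1 ha
    obtain ⟨j, hj, rfl⟩ := mem_image.1 hb
    exact h2 i hi j hj (lt_of_lt_index hs (h1 i hi).2 hab)

/-- No local maxima: a large good pair. -/
theorem noMax {ρ : X → X → ℝ} (hρ : IsScale ρ) (k : ℕ) (s : ℕ → X)
    (hs : ∀ i j, i < j → j < k → s i < s j) (n : ℕ) (hk : 2 * n + 2 ≤ k) (hn : 1 ≤ n)
    (hmax : ∀ i j l m, i < j → j < l → l < m → m < k →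
      ¬ (ρ (s i) (s j) < ρ (s j) (s l) ∧ ρ (s l) (s m) < ρ (s j) (s l))) :
    ∃ (T : Finset X) (z : X), (∀ x ∈ T, ∃ i < k, x = s i) ∧ (∃ i < k, z = s i) ∧ n ≤ T.card ∧
      (PL ρ T z ∨ PR ρ T z) := by
  obtain ⟨z, L, R, h1, h2, h3, h4, h5, h6, h7⟩ := lemA hρ k s hs hmax (2 * n - 1) 0 (by omega)
  have hz : z < k := by omega
  rcases (show n ≤ L.card ∨ n ≤ R.card by omega) with h | h
  · obtain ⟨e1, e2⟩ := PL_image (ρ := ρ) hs hz (L := L) (fun a ha => (h4 a ha).2)
      (fun a ha c hc hac => h6 a ha c hac (h4 c hc).2)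
    refine ⟨L.image s, s z, ?_, ⟨z, hz, rfl⟩, by omega, Or.inl e1⟩
    intro x hx
    obtain ⟨i, hi, rfl⟩ := mem_image.1 hx
    exact ⟨i, by have := h4 i hi; omega, rfl⟩
  · obtain ⟨e1, e2⟩ := PR_image (ρ := ρ) hs (z := z) (R := R)
      (fun a ha => ⟨(h5 a ha).1, by have := h5 a ha; omega⟩)
      (fun a ha c hc hac => h7 c hc a (h5 a ha).1 hac)
    refine ⟨R.image s, s z, ?_, ⟨z, hz, rfl⟩, by omega, Or.inr e1⟩
    intro x hx
    obtain ⟨i, hi, rfl⟩ := mem_image.1 hx
    exact ⟨i, by have := h5 i hi; omega, rfl⟩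

/-- No local minima: a large good pair. -/
theorem noMin {ρ : X → X → ℝ} (hρ : IsScale ρ) (k : ℕ) (s : ℕ → X)
    (hs : ∀ i j, i < j → j < k → s i < s j) (n : ℕ) (hk : 2 * n + 2 ≤ k) (hn : 1 ≤ n)
    (hmin : ∀ i j l m, i < j → j < l → l < m → m < k →
      ¬ (ρ (s j) (s l) < ρ (s i) (s j) ∧ ρ (s j) (s l) < ρ (s l) (s m))) :
    ∃ (T : Finset X) (z : X), (∀ x ∈ T, ∃ i < k, x = s i) ∧ (∃ i < k, z = s i) ∧ n ≤ T.card ∧
      (PL ρ T z ∨ PR ρ T z) := by
  classical
  set I := (Finset.Ico 1 (k - 2)).filter (fun i => ρ (s 0) (s i) ≤ ρ (s i) (s (i + 1))) with hI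
  set J := (Finset.Ico 1 (k - 2)).filter
    (fun i => ρ (s (i + 1)) (s (k - 1)) ≤ ρ (s i) (s (i + 1))) with hJ
  have hIJ : Finset.Ico 1 (k - 2) ⊆ I ∪ J := by
    intro i hi
    have hi' := Finset.mem_Ico.1 hi
    have h := hmin 0 i (i + 1) (k - 1) (by omega) (by omega) (by omega) (by omega)
    rw [not_and_or, not_lt, not_lt] at h
    rcases h with h | h
    · exact mem_union_left _ (mem_filter.2 ⟨hi, h⟩)
    · exact mem_union_right _ (mem_filter.2 ⟨hi, h⟩)
  have hc := (card_le_card hIJ).trans (card_union_le I J)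
  rw [Nat.card_Ico] at hc
  have hle : ∀ i j, i ≤ j → j < k → s i ≤ s j := by
    intro i j hij hj
    rcases Nat.eq_or_lt_of_le hij with e | e
    · rw [e]
    · exact (hs _ _ e hj).le
  rcases (show n ≤ I.card ∨ n ≤ J.card by omega) with h | h
  · obtain ⟨e1, e2⟩ := PR_image (ρ := ρ) hs (z := 0) (R := I)
      (fun a ha => by
        have := Finset.mem_Ico.1 (mem_filter.1 ha).1
        constructor <;> omega)
      (fun a ha c hc hac => by
        have h1 := Finset.mem_Ico.1 (mem_filter.1 ha).1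
        have h2 := Finset.mem_Ico.1 (mem_filter.1 hc).1
        exact (mem_filter.1 ha).2.trans (hρ.mono le_rfl (hs a (a + 1) (by omega) (by omega))
          (hle _ _ (by omega) (by omega))))
    refine ⟨I.image s, s 0, ?_, ⟨0, by omega, rfl⟩, by omega, Or.inr e1⟩
    intro x hx
    obtain ⟨i, hi, rfl⟩ := mem_image.1 hx
    have := Finset.mem_Ico.1 (mem_filter.1 hi).1
    exact ⟨i, by omega, rfl⟩
  · obtain ⟨e1, e2⟩ := PL_image (ρ := ρ) hs (z := k - 1) (by omega) (L := J.image (· + 1))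
      (fun a ha => by
        obtain ⟨i, hi, rfl⟩ := mem_image.1 ha
        have := Finset.mem_Ico.1 (mem_filter.1 hi).1
        omega)
      (fun a ha c hc hac => by
        obtain ⟨i, hi, rfl⟩ := mem_image.1 ha
        obtain ⟨j, hj, rfl⟩ := mem_image.1 hc
        have h1 := Finset.mem_Ico.1 (mem_filter.1 hi).1
        have h2 := Finset.mem_Ico.1 (mem_filter.1 hj).1
        exact (mem_filter.1 hj).2.trans (hρ.mono (hle _ _ (by omega) (by omega))
          (hs j (j + 1) (by omega) (by omega)) le_rfl))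
    have e3 : (J.image (· + 1)).card = J.card :=
      card_image_of_injective _ (add_left_injective 1)
    refine ⟨(J.image (· + 1)).image s, s (k - 1), ?_, ⟨k - 1, by omega, rfl⟩, by omega,
      Or.inl e1⟩
    intro x hx
    obtain ⟨i, hi, rfl⟩ := mem_image.1 hx
    obtain ⟨j, hj, rfl⟩ := mem_image.1 hi
    have := Finset.mem_Ico.1 (mem_filter.1 hj).1
    exact ⟨j + 1, by omega, rfl⟩

end Pool.Agent.N584.TI
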